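import Mathlib

/-!
# Finite fields: degrees of the preimages under additive and power polynomials
-/

set_option autoImplicit false

namespace Pool.Agent.K6.H71.AS

open Polynomial IntermediateField

section basic

variable {k : Type} [Field k] [Finite k] {L : Type} [Field L] [Algebra k L]

/-- the powers of the Frobenius endomorphism -/
theorem exists_fr (N : ℕ) : ∃ φ : L →ₐ[k] L, ∀ x : L, φ x = x ^ (Nat.card k ^ N) := by
  let _ : Fintype k := Fintype.ofFinite k
  induction N with
  | zero => exact ⟨AlgHom.id k L, fun x => by simp⟩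
  | succ N ih =>
    obtain ⟨φ, hφ⟩ := ih
    refine ⟨(FiniteField.frobeniusAlgHom k L).comp φ, fun x => ?_⟩
    rw [AlgHom.comp_apply, hφ, FiniteField.coe_frobeniusAlgHom, Nat.card_eq_fintype_card]
    simp only []
    rw [← pow_mul, pow_succ]

/-- `y ^ (q ^ N) = y` if and only if the degree of `y` divides `N` -/
theorem pow_eq_iff {y : L} (hy : IsIntegral k y) (N : ℕ) :
    y ^ (Nat.card k ^ N) = y ↔ (minpoly k y).natDegree ∣ N := by
  rw [(minpoly.irreducible hy).natDegree_dvd_iff_dvd_X_pow_card_pow_sub_X, minpoly.dvd_iff]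
  simp [sub_eq_zero]

theorem isIntegral_aeval {k : Type} [Field k] {L : Type} [Field L] [Algebra k L] {y : L}
    (hy : IsIntegral k y) (h : k[X]) : IsIntegral k (aeval y h) :=
  IsIntegral.of_mem_of_fg _ (hy.fg_adjoin_singleton) _ (aeval_mem_adjoin_singleton k y)

/-- the values of polynomials have smaller degree -/
theorem deg_dvd {y : L} (hy : IsIntegral k y) (h : k[X]) :
    (minpoly k (aeval y h)).natDegree ∣ (minpoly k y).natDegree := by
  rw [← pow_eq_iff (isIntegral_aeval hy h)]
  obtain ⟨φ, hφ⟩ := exists_fr (k := k) (L := L) (minpoly k y).natDegree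
  rw [← hφ, ← aeval_algHom_apply, hφ, (pow_eq_iff hy _).2 dvd_rfl]

/-- The degrees of the preimages under `h` are odd multiples of the degrees. -/
def OddRel (h : k[X]) : Prop :=
  ∀ (L : Type) [Field L] [Algebra k L] (y : L), IsIntegral k y →
    ∃ m : ℕ, Odd m ∧ (minpoly k y).natDegree = m * (minpoly k (aeval y h)).natDegree

omit [Finite k] in
theorem OddRel.comp {h g : k[X]} (hh : OddRel h) (hg : OddRel g) : OddRel (h.comp g) := by
  intro L _ _ y hy
  obtain ⟨m, hm, e⟩ := hg L y hy
  obtain ⟨m', hm', e'⟩ := hh L (aeval y g) (isIntegral_aeval hy g)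
  refine ⟨m * m', hm.mul hm', ?_⟩
  rw [e, e', aeval_comp, mul_assoc]

omit [Finite k] in
theorem OddRel.X : OddRel (X : k[X]) := by
  intro L _ _ y hy
  exact ⟨1, odd_one, by rw [aeval_X, one_mul]⟩

/-- Criterion: an odd multiple of the degree. -/
theorem oddRel_of {h : k[X]} (H : ∀ (L : Type) [Field L] [Algebra k L] (y : L), IsIntegral k y →
    ∃ m : ℕ, Odd m ∧ y ^ (Nat.card k ^ ((minpoly k (aeval y h)).natDegree * m)) = y) :
    OddRel h := by
  intro L _ _ y hy
  obtain ⟨m, hm, e⟩ := H L y hy
  rw [pow_eq_iff hy] at e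
  obtain ⟨t, ht⟩ := deg_dvd hy h
  have hx := isIntegral_aeval hy h
  have h0 : 0 < (minpoly k (aeval y h)).natDegree := minpoly.natDegree_pos hx
  refine ⟨t, ?_, by rw [ht, mul_comm]⟩
  rw [ht] at e
  exact Odd.of_dvd_nat hm (Nat.dvd_of_mul_dvd_mul_left h0 e)

/-- The polynomials `X ^ ℓ + c` with `ℓ ∣ q - 1`. -/
theorem oddRel_pow_prime {ℓ : ℕ} (hℓ : Odd ℓ) (hℓk : ℓ ∣ Nat.card k - 1) (c : k) :
    OddRel (X ^ ℓ + C c : k[X]) := by
  let _ : Fintype k := Fintype.ofFinite k
  apply oddRel_of
  intro L _ _ y hy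
  refine ⟨ℓ, hℓ, ?_⟩
  have hx := isIntegral_aeval hy (X ^ ℓ + C c : k[X])
  set n := (minpoly k (aeval y (X ^ ℓ + C c : k[X]))).natDegree with hn
  have hxn := (pow_eq_iff hx n).2 dvd_rfl
  obtain ⟨φ, hφ⟩ := exists_fr (k := k) (L := L) n
  rw [← hφ] at hxn
  have e1 : φ (y ^ ℓ) = y ^ ℓ := by
    rw [map_add, map_pow, aeval_X, aeval_C, map_add, AlgHom.commutes] at hxn
    exact add_right_cancel hxn
  by_cases hy0 : y = 0
  · rw [hy0, zero_pow]
    exact (pow_pos Nat.card_pos _).ne'
  -- the root of unity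
  set ζ := φ y / y with hζ
  have hζ1 : φ y = ζ * y := by rw [hζ, div_mul_cancel₀ _ hy0]
  have hζℓ : ζ ^ ℓ = 1 := by
    rw [hζ, div_pow, ← map_pow, e1, div_self (pow_ne_zero _ hy0)]
  have hζq : φ ζ = ζ := by
    rw [hφ]
    have h1 : ∀ N : ℕ, ζ ^ (Nat.card k ^ N) = ζ := by
      intro N
      induction N with
      | zero => simp
      | succ N ih =>
        rw [pow_succ, pow_mul, ih]
        obtain ⟨t, ht⟩ := hℓk
        have hc : Nat.card k = ℓ * t + 1 := by
          have : 0 < Nat.card k := Nat.card_pos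
          omega
        rw [hc, pow_succ, pow_mul, hζℓ, one_pow, one_mul]
    exact h1 n
  have key : ∀ j : ℕ, y ^ (Nat.card k ^ (n * j)) = ζ ^ j * y := by
    intro j
    induction j with
    | zero => simp
    | succ j ih =>
      rw [mul_add, mul_one, pow_add, pow_mul, ih, ← hφ, map_mul, map_pow, hζq, hζ1, pow_succ]
      ring
  rw [key, hζℓ, one_mul]

theorem oddRel_pow {m : ℕ} (hm : Odd m) (hmk : ∀ ℓ : ℕ, ℓ.Prime → ℓ ∣ m → ℓ ∣ Nat.card k - 1)
    (c : k) : OddRel (X ^ m + C c : k[X]) := by
  induction m using Nat.strong_induction_on generalizing c with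
  | _ m ih =>
    by_cases h1 : m = 1
    · rw [h1]
      exact oddRel_pow_prime odd_one (one_dvd _) c
    · obtain ⟨ℓ, hℓ, hℓm⟩ := Nat.exists_prime_and_dvd h1
      obtain ⟨t, ht⟩ := hℓm
      have hm0 : 0 < m := hm.pos
      have ht0 : 0 < t := by
        rcases Nat.eq_zero_or_pos t with h | h
        · rw [h, mul_zero] at ht
          omega
        · exact h
      have htm : t < m := by
        rw [ht]
        exact lt_mul_left ht0 hℓ.one_lt
      have e : (X ^ m + C c : k[X]) = (X ^ ℓ + C c : k[X]).comp (X ^ t + C 0) := by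
        rw [add_comp, pow_comp, X_comp, C_comp, C_0, add_zero, ← pow_mul, mul_comm t ℓ, ← ht]
      rw [e]
      refine OddRel.comp (oddRel_pow_prime (Odd.of_dvd_nat hm ⟨t, ht⟩) (hmk ℓ hℓ ⟨t, ht⟩) c) ?_
      refine ih t htm (Odd.of_dvd_nat hm ⟨ℓ, by rw [ht, mul_comm]⟩) ?_ 0
      intro ℓ' hℓ' hd
      exact hmk ℓ' hℓ' (by rw [ht]; exact hd.mul_left _)

end basic

section as

/-- The polynomial `X ^ p - r ^ (p - 1) X + w`. -/
noncomputable def asPol {k : Type} [Field k] (p : ℕ) (r w : k) : k[X] :=
  X ^ p - C (r ^ (p - 1)) * X + C w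

variable {k : Type} [Field k] {p : ℕ}

theorem asPol_natDegree (hp : 1 < p) (r w : k) : (asPol p r w).natDegree = p := by
  have h1 : (C (r ^ (p - 1)) * X - C w : k[X]).natDegree < p := by
    refine lt_of_le_of_lt (natDegree_sub_le _ _) (max_lt ?_ ?_)
    · refine lt_of_le_of_lt (natDegree_C_mul_le _ _) ?_
      rw [natDegree_X]
      exact hp
    · rw [natDegree_C]
      omega
  have h2 : asPol p r w = X ^ p - (C (r ^ (p - 1)) * X - C w) := by
    unfold asPol
    ring
  rw [h2, natDegree_sub_eq_left_of_natDegree_lt (by rwa [natDegree_X_pow]), natDegree_X_pow]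

theorem asPol_monic (hp : 1 < p) (r w : k) : (asPol p r w).Monic := by
  unfold asPol
  have h1 : (C (r ^ (p - 1)) * X - C w : k[X]).degree < p := by
    refine lt_of_le_of_lt (degree_sub_le _ _) (max_lt ?_ ?_)
    · refine lt_of_le_of_lt (degree_C_mul_X_le _) ?_
      exact_mod_cast hp
    · refine lt_of_le_of_lt degree_C_le ?_
      exact_mod_cast (by omega : 0 < p)
  have h2 : X ^ p - C (r ^ (p - 1)) * X + C w = X ^ p - (C (r ^ (p - 1)) * X - C w) := by ring
  rw [h2]
  exact monic_X_pow_sub h1

/-- The trace to the prime field of the sum of the elements `(x - w) / r ^ p`, `x` a root of `f`. -/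
noncomputable def asTrace [Fact p.Prime] [Algebra (ZMod p) k] (r w : k) (f : k[X]) : ZMod p :=
  Algebra.trace (ZMod p) k ((-f.nextCoeff - f.natDegree * w) / r ^ p)

variable [Finite k] [hpp : Fact p.Prime] [Algebra (ZMod p) k] {L : Type} [Field L] [Algebra k L]

theorem trace_sum {x : L} (hx : IsIntegral k x) (r w : k) :
    ∑ i ∈ Finset.range (Module.finrank (ZMod p) k * (minpoly k x).natDegree),
      ((x - algebraMap k L w) / (algebraMap k L r) ^ p) ^ (p ^ i) =
      algebraMap k L (algebraMap (ZMod p) k (asTrace r w (minpoly k x))) := by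
  let _ : Algebra (ZMod p) L := ((algebraMap k L).comp (algebraMap (ZMod p) k)).toAlgebra
  have : IsScalarTower (ZMod p) k L := IsScalarTower.of_algebraMap_eq (fun _ => rfl)
  have : FiniteDimensional k k⟮x⟯ := adjoin.finiteDimensional hx
  have : Finite k⟮x⟯ := Module.finite_of_finite k
  have hfr : Module.finrank k k⟮x⟯ = (minpoly k x).natDegree := adjoin.finrank hx
  set δ : k⟮x⟯ := (AdjoinSimple.gen k x - algebraMap k k⟮x⟯ w) / (algebraMap k k⟮x⟯ r) ^ p with hδ
  have h1 := FiniteField.algebraMap_trace_eq_sum_pow (ZMod p) k⟮x⟯ δ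
  have h2 : Algebra.trace (ZMod p) k⟮x⟯ δ = asTrace r w (minpoly k x) := by
    rw [← Algebra.trace_trace (S := k)]
    unfold asTrace
    congr 1
    have h3 : δ = (r ^ p)⁻¹ • (AdjoinSimple.gen k x - algebraMap k k⟮x⟯ w) := by
      rw [hδ, Algebra.smul_def, map_inv₀, map_pow, div_eq_mul_inv, mul_comm]
    rw [h3, map_smul, map_sub, trace_adjoinSimpleGen hx,
      Algebra.trace_algebraMap, hfr, smul_eq_mul, nsmul_eq_mul, div_eq_mul_inv, mul_comm]
  have h4 : Module.finrank (ZMod p) k⟮x⟯ = Module.finrank (ZMod p) k * (minpoly k x).natDegree := by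
    rw [← hfr, Module.finrank_mul_finrank]
  rw [h2, h4, Nat.card_zmod] at h1
  have h5 := congrArg (algebraMap k⟮x⟯ L) h1
  rw [map_sum, ← IsScalarTower.algebraMap_apply, IsScalarTower.algebraMap_apply (ZMod p) k L] at h5
  rw [h5]
  refine Finset.sum_congr rfl fun i _ => ?_
  rw [map_pow, hδ, map_div₀, map_sub, map_pow, ← IsScalarTower.algebraMap_apply,
    ← IsScalarTower.algebraMap_apply, AdjoinSimple.algebraMap_gen]

theorem card_k : Nat.card k = p ^ Module.finrank (ZMod p) k := by
  have h := Module.natCard_eq_pow_finrank (K := ZMod p) (V := k)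
  rwa [Nat.card_zmod] at h

/-- the action of the Frobenius automorphism on a root -/
theorem frob_root {r w : k} (hr : r ≠ 0) {y : L} (hy : IsIntegral k y) (j : ℕ) :
    y ^ (Nat.card k ^ ((minpoly k (aeval y (asPol p r w))).natDegree * j)) =
      y + j * algebraMap k L (r * algebraMap (ZMod p) k
        (asTrace r w (minpoly k (aeval y (asPol p r w))))) := by
  have hx := isIntegral_aeval hy (asPol p r w)
  set x := aeval y (asPol p r w) with hxd
  set n := (minpoly k x).natDegree with hn
  have : CharP k p := charP_of_injective_algebraMap (algebraMap (ZMod p) k).injective p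
  have : CharP L p := charP_of_injective_algebraMap (algebraMap k L).injective p
  have hr' : algebraMap k L r ≠ 0 := (_root_.map_ne_zero _).2 hr
  set R := algebraMap k L r with hR
  set γ := y / R with hγ
  set δ := (x - algebraMap k L w) / R ^ p with hδ
  have hyγ : y = R * γ := by rw [hγ, mul_div_cancel₀ _ hr']
  have e0 : γ ^ p = γ + δ := by
    have h1 : x = y ^ p - R ^ (p - 1) * y + algebraMap k L w := by
      rw [hxd, asPol]
      simp [hR]
    have hp1 : R ^ p = R ^ (p - 1) * R := by
      rw [← pow_succ, Nat.sub_add_cancel hpp.out.one_lt.le]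
    rw [hδ, h1, hγ, div_pow]
    field_simp
    rw [hp1]
    ring
  have e1 : ∀ N : ℕ, γ ^ (p ^ N) = γ + ∑ i ∈ Finset.range N, δ ^ (p ^ i) := by
    intro N
    induction N with
    | zero => simp
    | succ N ih =>
      rw [pow_succ, mul_comm, pow_mul, e0, add_pow_char_pow, ih, Finset.sum_range_succ, add_assoc]
  have e2 : γ ^ (Nat.card k ^ n) = γ + algebraMap k L (algebraMap (ZMod p) k
      (asTrace r w (minpoly k x))) := by
    rw [card_k (p := p), ← pow_mul, e1, trace_sum hx]
  set T := algebraMap k L (algebraMap (ZMod p) k (asTrace r w (minpoly k x))) with hT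
  obtain ⟨φ, hφ⟩ := exists_fr (k := k) (L := L) n
  have e3 : φ y = y + R * T := by
    rw [hyγ, map_mul, hφ γ, e2, hR, AlgHom.commutes]
    ring
  have e4 : y ^ (Nat.card k ^ (n * j)) = y + j * (R * T) := by
    induction j with
    | zero => simp
    | succ j ih =>
      rw [mul_add, mul_one, pow_add, pow_mul, ih, ← hφ, map_add, e3, map_mul, map_natCast, map_mul,
        hR, hT, AlgHom.commutes, AlgHom.commutes]
      push_cast
      ring
  rw [e4, map_mul]

/-- The additive polynomials of degree `p`. -/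
theorem oddRel_asPol (hp2 : p ≠ 2) {r w : k} (hr : r ≠ 0) : OddRel (asPol p r w) := by
  apply oddRel_of
  intro L _ _ y hy
  refine ⟨p, hpp.out.odd_of_ne_two hp2, ?_⟩
  have : CharP k p := charP_of_injective_algebraMap (algebraMap (ZMod p) k).injective p
  have : CharP L p := charP_of_injective_algebraMap (algebraMap k L).injective p
  rw [frob_root hr hy, CharP.cast_eq_zero, zero_mul, add_zero]

/-- **Irreducibility.** -/
theorem irreducible_asPol {f : k[X]} (hfm : f.Monic) (hfi : Irreducible f) {r w : k} (hr : r ≠ 0)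
    (hT : asTrace (p := p) r w f ≠ 0) : Irreducible (f.comp (asPol p r w)) := by
  have hp1 : 1 < p := hpp.out.one_lt
  have hdeg : (f.comp (asPol p r w)).natDegree = f.natDegree * p := by
    rw [natDegree_comp, asPol_natDegree hp1]
  have hmon : (f.comp (asPol p r w)).Monic :=
    hfm.comp (asPol_monic hp1 r w) (by rw [asPol_natDegree hp1]; omega)
  have hf0 : 0 < f.natDegree := hfi.natDegree_pos
  have hnu : ¬ IsUnit (f.comp (asPol p r w)) := by
    intro h
    have := natDegree_eq_zero_of_isUnit h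
    rw [hdeg] at this
    have h2 : 0 < f.natDegree * p := Nat.mul_pos hf0 (by omega)
    omega
  obtain ⟨g, hg, hgd⟩ := WfDvdMonoid.exists_irreducible_factor hnu hmon.ne_zero
  have : Fact (Irreducible g) := ⟨hg⟩
  set y := AdjoinRoot.root g with hyd
  have hgint : IsIntegral k y := AdjoinRoot.isIntegral_root hg.ne_zero
  have hgy : (minpoly k y).natDegree = g.natDegree := by
    rw [AdjoinRoot.minpoly_root hg.ne_zero, natDegree_mul_C]
    exact inv_ne_zero (leadingCoeff_ne_zero.2 hg.ne_zero)
  have hfy : aeval (aeval y (asPol p r w)) f = 0 := by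
    rw [← aeval_comp]
    exact aeval_eq_zero_of_dvd_aeval_eq_zero hgd (AdjoinRoot.eval₂_root g)
  have hmin : minpoly k (aeval y (asPol p r w)) = f :=
    (minpoly.eq_of_irreducible_of_monic hfi hfy hfm).symm
  obtain ⟨m, hm⟩ := deg_dvd hgint (asPol p r w)
  have h1 := frob_root (p := p) (w := w) hr hgint m
  rw [← hm, (pow_eq_iff hgint _).2 dvd_rfl, hmin] at h1
  have : CharP k p := charP_of_injective_algebraMap (algebraMap (ZMod p) k).injective p
  have h2 : (m : k) = 0 := by
    have h3 : algebraMap k (AdjoinRoot g) (m * (r * algebraMap (ZMod p) k (asTrace r w f))) = 0 := by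
      rw [map_mul, map_natCast]
      exact left_eq_add.1 h1
    rw [FaithfulSMul.algebraMap_eq_zero_iff] at h3
    rcases mul_eq_zero.1 h3 with h4 | h4
    · exact h4
    · exact absurd h4 (mul_ne_zero hr ((_root_.map_ne_zero _).2 hT))
  have h5 : p ∣ m := (CharP.cast_eq_zero_iff k p m).1 h2
  obtain ⟨t, ht⟩ := h5
  have hgd' : (f.comp (asPol p r w)).natDegree ≤ g.natDegree := by
    rw [hdeg, ← hgy, hm, hmin, ht]
    have ht0 : 0 < t := by
      rcases Nat.eq_zero_or_pos t with h | h
      · exfalso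
        have := hg.natDegree_pos
        rw [← hgy, hm, ht, h, mul_zero, mul_zero] at this
        omega
      · exact h
    exact Nat.mul_le_mul_left _ (Nat.le_mul_of_pos_right _ ht0)
  exact (associated_of_dvd_of_natDegree_le hgd hmon.ne_zero hgd').irreducible hg

end as

end Pool.Agent.K6.H71.AS
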