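import Pool.Agent.K6.H71.AS
import Pool.Agent.R915.It.Main
import Pool.Agent.R939.FF.Prm

/-!
# Finite fields: base changes in which only the primes of the discriminant must remain prime
-/

set_option autoImplicit false

namespace Pool.Agent.K6.H71.AS

open Polynomial IntermediateField Pool.Agent.R939.EI Pool.Agent.TH115.GD Pool.Agent.R915.It

section trivial

variable {k : Type} [Field k]

/-- The condition on the divisors under base change. -/
theorem onlyTrivial_comp {a b h : k[X]} (hb : b ≠ 0) (hodd : Odd h.natDegree) (hi : Inert b h)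
    (hO : OnlyTrivial a b) : OnlyTrivial (a.comp h) (b.comp h) := by
  intro A' hA' hs hd hN
  obtain ⟨A, c, hA, hAs, hAb, hc, e⟩ := hi.divisor hb hodd.pos hA' hs hd
  have ed : (a.comp h) ^ 2 - 4 * b.comp h = (a ^ 2 - 4 * b).comp h := by
    simp
  obtain ⟨ε, hε, hsp, -⟩ := hN
  rw [ed] at hsp
  have hsp' : Splits (a ^ 2 - 4 * b) (ε * c) A := by
    refine splits_of_comp (h := h) hodd (mul_ne_zero hε hc) hA.ne_zero ?_
    obtain ⟨x, y, z, hz, e1⟩ := hsp
    refine ⟨x, y, z, hz, ?_⟩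
    rw [← e1, e, C_mul]
    ring
  rcases hO A hA hAs hAb ⟨ε * c, mul_ne_zero hε hc, hsp', fun ρ δ m hρ hdd hδ =>
    hsp'.sq_mod (mul_ne_zero hε hc) hA.ne_zero hρ hdd hδ⟩ with h1 | ⟨e', q, he', hq⟩
  · left
    rw [h1, one_comp, mul_one] at e
    exact hA'.eq_one_of_isUnit (by rw [e]; exact isUnit_C.2 (isUnit_iff_ne_zero.2 hc))
  · right
    refine ⟨c * e', q.comp h, mul_ne_zero hc he', ?_⟩
    rw [e, mul_assoc, ← mul_comp, hq]
    simp [C_mul, mul_assoc]

end trivial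

section inert

variable {k : Type} [Field k]

/-- Non-squares remain non-squares in extensions of odd degree. -/
theorem inertIn_comp {a b D h : k[X]} (hh : h.natDegree ≠ 0) (hr : OddRel h) (hD : InertIn a b D) :
    InertIn (a.comp h) (b.comp h) (D.comp h) := by
  obtain ⟨hD0, hD'⟩ := hD
  refine ⟨comp_ne (Nat.pos_of_ne_zero hh) hD0, ?_⟩
  intro ρ hρ hρD s
  have hfac : Fact (Irreducible ρ) := ⟨hρ⟩
  set L := AdjoinRoot ρ
  set y : L := AdjoinRoot.root ρ with hy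
  have hyint : IsIntegral k y := AdjoinRoot.isIntegral_root hρ.ne_zero
  set x : L := aeval y h with hx
  have hxint : IsIntegral k x := isIntegral_aeval hyint h
  have hπ : Irreducible (minpoly k x) := minpoly.irreducible hxint
  have hxD : aeval x D = 0 := by
    rw [hx, ← aeval_comp]
    exact aeval_eq_zero_of_dvd_aeval_eq_zero hρD (AdjoinRoot.eval₂_root ρ)
  have hπD : minpoly k x ∣ D := minpoly.dvd k x hxD
  obtain ⟨m, hm, hmn⟩ := hr L y hyint
  -- the degree of `L` over `k(x)`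
  let _ := (AdjoinRoot.powerBasis hρ.ne_zero).finite
  have hfL : Module.finrank k L = (minpoly k y).natDegree := by
    rw [(AdjoinRoot.powerBasis hρ.ne_zero).finrank, AdjoinRoot.powerBasis_dim, hy,
      AdjoinRoot.minpoly_root hρ.ne_zero, natDegree_mul_C]
    exact inv_ne_zero (leadingCoeff_ne_zero.2 hρ.ne_zero)
  have hfE : Module.finrank k k⟮x⟯ = (minpoly k x).natDegree := adjoin.finrank hxint
  have hfr : Module.finrank k⟮x⟯ L = m := by
    have h1 := Module.finrank_mul_finrank k k⟮x⟯ L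
    rw [hfL, hfE, hmn, mul_comm] at h1
    exact Nat.eq_of_mul_eq_mul_right (minpoly.natDegree_pos hxint) h1
  -- the main point
  have key : ∀ g : k[X], (∀ r : k[X], ¬ minpoly k x ∣ g - r ^ 2) → ¬ ρ ∣ g.comp h - s ^ 2 := by
    intro g hg hdv
    have h1 : aeval y (g.comp h - s ^ 2) = 0 :=
      aeval_eq_zero_of_dvd_aeval_eq_zero hdv (AdjoinRoot.eval₂_root ρ)
    rw [map_sub, map_pow, aeval_comp, sub_eq_zero] at h1
    set β : k⟮x⟯ := aeval (AdjoinSimple.gen k x) g with hβ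
    have hβ' : algebraMap k⟮x⟯ L β = aeval x g := by
      rw [hβ, ← aeval_algebraMap_apply, AdjoinSimple.algebraMap_gen]
    have h2 : β ^ m = (Algebra.norm k⟮x⟯ (aeval y s)) ^ 2 := by
      have h3 := congrArg (Algebra.norm k⟮x⟯) h1
      rw [map_pow, ← hx, ← hβ', Algebra.norm_algebraMap, hfr] at h3
      exact h3
    have h3 : ∃ γ : k⟮x⟯, β = γ ^ 2 := by
      by_cases hβ0 : β = 0
      · exact ⟨0, by rw [hβ0]; ring⟩
      obtain ⟨j, hj⟩ := hm
      refine ⟨Algebra.norm k⟮x⟯ (aeval y s) / β ^ j, ?_⟩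
      rw [div_pow, ← h2, hj, eq_div_iff (pow_ne_zero _ (pow_ne_zero _ hβ0))]
      ring
    obtain ⟨γ, hγ⟩ := h3
    have h4 : ∃ r : k[X], aeval x r = (γ : L) := by
      have h5 : (γ : L) ∈ k⟮x⟯ := γ.2
      rw [← mem_toSubalgebra, adjoin_simple_toSubalgebra_of_isAlgebraic
        hxint.isAlgebraic, Algebra.adjoin_singleton_eq_range_aeval] at h5
      obtain ⟨r, hr⟩ := h5
      exact ⟨r, hr⟩
    obtain ⟨r, hr⟩ := h4
    apply hg r
    apply minpoly.dvd
    rw [map_sub, map_pow, hr, ← hβ', hγ]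
    simp
  constructor
  · exact key b fun r => (hD' _ hπ hπD r).1
  · have := key (a ^ 2 - 4 * b) fun r => (hD' _ hπ hπD r).2
    simpa using this

end inert

section main

variable {k k' K F : Type} [Field k] [Field k'] [Algebra k k'] [Field K] [Algebra k[X] K]
    [Field F] [Algebra k'[X] F] [IsFractionRing k'[X] F] [Algebra K F]

/-- The base change by `h` and then a twist: only the primes of `b (a² - 4 b)` must remain prime. -/
theorem tate_of_inert [PerfectField k] (hT : IsTower k k' K F) (h2 : (2 : k) ≠ 0) {a b D h : k[X]}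
    (hNb : NotNorm b) (hNd : NotNorm (a ^ 2 - 4 * b)) (hO : OnlyTrivial a b)
    (hO' : OnlyTrivial (-2 * a) (a ^ 2 - 4 * b)) (hodd : Odd h.natDegree)
    (hi : Inert (b * (a ^ 2 - 4 * b)) h) (hD : InertIn (a.comp h) (b.comp h) D) {e : k}
    (he : e ≠ 0) :
    TateAtTwo (F := F) k' (crvT (algebraMap k[X] K (C e * (a.comp h * D)))
      (algebraMap k[X] K (C (e ^ 2) * (b.comp h * D ^ 2)))) := by
  have hb0 : b ≠ 0 := by
    rintro rfl
    exact (hNb 0 1 0 0 (by simp)).1 rfl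
  have hd0 : a ^ 2 - 4 * b ≠ 0 := by
    intro h0
    exact (hNd 0 1 0 0 (by rw [h0]; simp)).1 rfl
  have ed : (a.comp h) ^ 2 - 4 * b.comp h = (a ^ 2 - 4 * b).comp h := by
    simp
  have h4 : (a ^ 2 - 4 * b) ≠ 0 := hd0
  have hib : Inert b h := fun π hπ hdv => hi π hπ (hdv.mul_right _)
  have hid : Inert (a ^ 2 - 4 * b) h := fun π hπ hdv => hi π hπ (hdv.mul_left _)
  have hO1 := onlyTrivial_comp hb0 hodd hib hO
  have hO2 : OnlyTrivial (-2 * a.comp h) ((a.comp h) ^ 2 - 4 * b.comp h) := by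
    have h5 := onlyTrivial_comp hd0 hodd hid hO'
    have e1 : (-2 * a : k[X]).comp h = -2 * a.comp h := by
      simp
    rw [e1, ← ed] at h5
    exact h5
  have h6 := twist_main (F := F) hT h2 (a := a.comp h) (b := b.comp h) (D := D) (h := X) (c := e)
    (comp_ne hodd.pos hb0) (by rw [ed]; exact comp_ne hodd.pos hd0) (notNorm_comp hb0 hodd hNb)
    (by rw [ed]; exact notNorm_comp hd0 hodd hNd) hO1 hO2 hD he (by rw [natDegree_X]; exact odd_one)
    (by
      intro π hπ _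
      rw [comp_X]
      exact ⟨hπ, PerfectField.separable_of_irreducible hπ⟩)
  rw [comp_X, comp_X] at h6
  exact h6

/-- The base change of the twist by `D`, over finite fields. -/
theorem tate_of_oddRel [Finite k] (hT : IsTower k k' K F) (h2 : (2 : k) ≠ 0) {a b D h : k[X]}
    (hNb : NotNorm b) (hNd : NotNorm (a ^ 2 - 4 * b)) (hO : OnlyTrivial a b)
    (hO' : OnlyTrivial (-2 * a) (a ^ 2 - 4 * b)) (hodd : Odd h.natDegree)
    (hi : Inert (b * (a ^ 2 - 4 * b)) h) (hr : OddRel h) (hD : InertIn a b D) {e : k}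
    (he : e ≠ 0) :
    TateAtTwo (F := F) k' (crvT (algebraMap k[X] K ((C e * (a * D)).comp h))
      (algebraMap k[X] K ((C (e ^ 2) * (b * D ^ 2)).comp h))) := by
  have h0 : h.natDegree ≠ 0 := hodd.pos.ne'
  have h1 := tate_of_inert (F := F) hT h2 hNb hNd hO hO' hodd hi (inertIn_comp h0 hr hD) he
  have e1 : (C e * (a * D)).comp h = C e * (a.comp h * D.comp h) := by simp
  have e2 : (C (e ^ 2) * (b * D ^ 2)).comp h = C (e ^ 2) * (b.comp h * (D.comp h) ^ 2) := by simp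
  rw [e1, e2]
  exact h1

end main

section towers

variable {k : Type} [Field k]

/-- If a value is not an `ℓ`-th power, then `ℓ` divides `q - 1`. -/
theorem dvd_of_not_pow {ℓ : ℕ} (hℓ : ℓ.Prime) {u : k} (h : ∀ z : k, z ^ ℓ ≠ u) :
    ℓ ∣ Nat.card k - 1 := by
  by_contra hcon
  have hcop : Nat.Coprime (Nat.card kˣ) ℓ := by
    rw [Nat.coprime_comm, hℓ.coprime_iff_not_dvd, Nat.card_units]
    exact hcon
  have hu : u ≠ 0 := by
    rintro rfl
    exact h 0 (zero_pow hℓ.ne_zero)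
  obtain ⟨v, hv⟩ := (powCoprime hcop).surjective (Units.mk0 u hu)
  apply h v
  have := congrArg (fun w : kˣ => (w : k)) hv
  simpa using this

variable [Finite k]

/-- The relative degrees in the composites of the polynomials `X ^ m + c` are odd. -/
theorem oddRel_composite {M : Set ℕ} {S : Set k} {h : k[X]} (hh : IsComposite M S h)
    (hM : ∀ ℓ : ℕ, ℓ.Prime → ℓ ∈ M → ℓ ∣ Nat.card k - 1) : OddRel h := by
  induction hh with
  | id => exact OddRel.X
  | @comp h m c _ hm hmM _ ih =>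
    exact ih.comp (oddRel_pow hm (fun ℓ hℓ hd => hM ℓ hℓ (hmM ℓ hℓ hd)) c)

omit [Finite k] in
theorem monic_factor {π : k[X]} (hπ : Irreducible π) : ∃ (g : k[X]) (c : k), g.Monic ∧
    Irreducible g ∧ c ≠ 0 ∧ π = C c * g := by
  have hl : π.leadingCoeff ≠ 0 := leadingCoeff_ne_zero.2 hπ.ne_zero
  refine ⟨C π.leadingCoeff⁻¹ * π, π.leadingCoeff, ?_, ?_, hl, ?_⟩
  · rw [Monic, leadingCoeff_mul, leadingCoeff_C, inv_mul_cancel₀ hl]
  · exact (irreducible_isUnit_mul (isUnit_C.2 (isUnit_iff_ne_zero.2 (inv_ne_zero hl)))).2 hπ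
  · rw [← mul_assoc, ← C_mul, mul_inv_cancel₀ hl, C_1, one_mul]

theorem dvd_of_nonResidue {M : Set ℕ} {S : Subring k} {f : k[X]} (hf : f ≠ 0) (hf' : ¬ IsUnit f)
    (hN : NonResidue M (S : Set k) f) (ℓ : ℕ) (hℓ : ℓ.Prime) (hM : ℓ ∈ M) :
    ℓ ∣ Nat.card k - 1 := by
  obtain ⟨π, hπ, hdv⟩ := WfDvdMonoid.exists_irreducible_factor hf' hf
  obtain ⟨g, c, hg, hgi, hc, e⟩ := monic_factor hπ
  exact dvd_of_not_pow hℓ (hN g hgi hg ((Dvd.intro_left _ e.symm).trans hdv) ℓ hℓ hM 0 S.zero_mem)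

variable {p : ℕ} [hpp : Fact p.Prime] [Algebra (ZMod p) k]

/-- The polynomial `h` is `h₁ ∘ A ∘ h₂`, `A = t ^ p - r ^ (p - 1) t + w`, with composites `h₁`, `h₂` of
polynomials `t ^ m + c`, and a condition on the traces. -/
def IsWild (p : ℕ) [Fact p.Prime] [Algebra (ZMod p) k] (M : Set ℕ) (S : Subring k) (f h : k[X]) :
    Prop :=
  ∃ (h₁ h₂ : k[X]) (r w : k), IsComposite M (S : Set k) h₁ ∧ IsComposite M (S : Set k) h₂ ∧
    r ∈ S ∧ w ∈ S ∧ r ≠ 0 ∧ h = h₁.comp ((X ^ p - C (r ^ (p - 1)) * X + C w).comp h₂) ∧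
    ∀ π : k[X], Irreducible π → π.Monic → π ∣ f → asTrace (p := p) r w (π.comp h₁) ≠ 0

theorem inert_wild {M : Set ℕ} {S : Subring k} {f h : k[X]}
    (hN : NonResidue M (S : Set k) f) (hw : IsWild p M S f h) : Inert f h := by
  obtain ⟨h₁, h₂, r, w, hh₁, hh₂, hr, hw, hr0, rfl, hTr⟩ := hw
  intro π hπ hdv
  obtain ⟨g, c, hg, hgi, hc, e⟩ := monic_factor hπ
  have hgd : g ∣ f := (Dvd.intro_left _ e.symm).trans hdv
  have hp1 : 1 < p := hpp.out.one_lt
  have h1 : Irreducible (g.comp h₁) := irr_composite hg hgi (hN g hgi hg hgd) hh₁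
  have h1m : (g.comp h₁).Monic := hg.comp hh₁.monic.1 hh₁.monic.2
  have h2 := irreducible_asPol (p := p) (w := w) h1m h1 hr0 (hTr g hgi hg hgd)
  have h2m : ((g.comp h₁).comp (asPol p r w)).Monic :=
    h1m.comp (asPol_monic hp1 r w) (by rw [asPol_natDegree hp1]; omega)
  have h3 : Irreducible (((g.comp h₁).comp (asPol p r w)).comp h₂) := by
    refine irr_composite h2m h2 (M := M) (S := S) ?_ hh₂
    intro ℓ hℓ hM c hc z
    rw [eval_comp, eval_comp]
    refine hN g hgi hg hgd ℓ hℓ hM _ (hh₁.maps _ ?_) z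
    unfold asPol
    rw [eval_add, eval_sub, eval_pow, eval_X, eval_mul, eval_C, eval_X, eval_C]
    exact S.add_mem (S.sub_mem (S.pow_mem hc p) (S.mul_mem (S.pow_mem hr _) hc)) hw
  have e3 : π.comp (h₁.comp ((X ^ p - C (r ^ (p - 1)) * X + C w).comp h₂)) =
      C c * ((g.comp h₁).comp (asPol p r w)).comp h₂ := by
    rw [e, mul_comp, C_comp, comp_assoc, comp_assoc]
    rfl
  rw [e3]
  have h4 := (irreducible_isUnit_mul (isUnit_C.2 (isUnit_iff_ne_zero.2 hc))).2 h3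
  exact ⟨h4, PerfectField.separable_of_irreducible h4⟩

theorem oddRel_wild (hp2 : p ≠ 2) {M : Set ℕ} {S : Subring k} {f h : k[X]}
    (hM : ∀ ℓ : ℕ, ℓ.Prime → ℓ ∈ M → ℓ ∣ Nat.card k - 1) (hw : IsWild p M S f h) : OddRel h := by
  obtain ⟨h₁, h₂, r, w, hh₁, hh₂, hr, hw, hr0, rfl, hTr⟩ := hw
  exact (oddRel_composite hh₁ hM).comp ((oddRel_asPol hp2 hr0).comp (oddRel_composite hh₂ hM))

omit [Finite k] in
theorem odd_wild (hp2 : p ≠ 2) {M : Set ℕ} {S : Subring k} {f h : k[X]}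
    (hw : IsWild p M S f h) : Odd h.natDegree := by
  obtain ⟨h₁, h₂, r, w, hh₁, hh₂, hr, hw, hr0, rfl, hTr⟩ := hw
  rw [natDegree_comp, natDegree_comp]
  have h1 : (X ^ p - C (r ^ (p - 1)) * X + C w : k[X]).natDegree = p :=
    asPol_natDegree hpp.out.one_lt r w
  rw [h1]
  exact hh₁.odd.mul ((hpp.out.odd_of_ne_two hp2).mul hh₂.odd)

/-- The coefficient after the leading one of `f(X ^ m + c)`, `m ≥ 2`. -/
theorem nextCoeff_comp_pow (f : k[X]) {m : ℕ} (hm : 1 < m) (c : k) :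
    (f.comp (X ^ m + C c)).nextCoeff = 0 := by
  have e : f.comp (X ^ m + C c) = expand k m (f.comp (X + C c)) := by
    rw [expand_eq_comp_X_pow, comp_assoc, add_comp, X_comp, C_comp]
  rw [e]
  by_cases h0 : (expand k m (f.comp (X + C c))).natDegree = 0
  · rw [nextCoeff, if_pos h0]
  · rw [nextCoeff_of_natDegree_pos (Nat.pos_of_ne_zero h0), coeff_expand (by omega), if_neg]
    rw [natDegree_expand]
    rw [natDegree_expand] at h0
    intro h1
    have h2 : m ∣ (f.comp (X + C c)).natDegree * m := dvd_mul_left _ _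
    have h3 := (Nat.dvd_sub_iff_right (by omega) h2).1 h1
    have := Nat.le_of_dvd one_pos h3
    omega

omit [Finite k] in
theorem prime_dvd_natDegree {M : Set ℕ} {S : Set k} {h : k[X]} (hh : IsComposite M S h) :
    ∀ ℓ : ℕ, ℓ.Prime → ℓ ∣ h.natDegree → ℓ ∈ M := by
  induction hh with
  | id =>
    intro ℓ hℓ hd
    rw [natDegree_X] at hd
    exact absurd (Nat.dvd_one.1 hd) hℓ.one_lt.ne'
  | @comp h m c _ hm hmM _ ih =>
    intro ℓ hℓ hd
    rw [natDegree_comp, natDegree_X_pow_add_C] at hd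
    rcases hℓ.dvd_mul.1 hd with h1 | h1
    · exact ih ℓ hℓ h1
    · exact hmM ℓ hℓ h1

/-- The condition on the traces for most of the towers. -/
theorem isWild_of_trace {M : Set ℕ} {S : Subring k} {f : k[X]}
    (hM : ∀ ℓ : ℕ, ℓ.Prime → ℓ ∈ M → ℓ ∣ Nat.card k - 1)
    (hf : ∀ π : k[X], Irreducible π → π.Monic → π ∣ f → ¬ p ∣ π.natDegree)
    {h₀ h₂ : k[X]} (hh₀ : IsComposite M (S : Set k) h₀) (hh₂ : IsComposite M (S : Set k) h₂)
    {m : ℕ} (hm : Odd m) (hm1 : m ≠ 1) (hmM : ∀ ℓ : ℕ, ℓ.Prime → ℓ ∣ m → ℓ ∈ M) {c r w : k}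
    (hc : c ∈ S) (hr : r ∈ S) (hw : w ∈ S) (hr0 : r ≠ 0)
    (hT : Algebra.trace (ZMod p) k (w / r ^ p) ≠ 0) :
    IsWild p M S f ((h₀.comp (X ^ m + C c)).comp
      ((X ^ p - C (r ^ (p - 1)) * X + C w).comp h₂)) := by
  have hh₁ : IsComposite M (S : Set k) (h₀.comp (X ^ m + C c)) := .comp hh₀ hm hmM hc
  refine ⟨_, h₂, r, w, hh₁, hh₂, hr, hw, hr0, rfl, ?_⟩
  intro π hπ hπm hπf
  have hm2 : 1 < m := by
    have := hm.pos
    omega
  have h1 : ¬ p ∣ (π.comp (h₀.comp (X ^ m + C c))).natDegree := by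
    rw [natDegree_comp, hpp.out.dvd_mul]
    rintro (h | h)
    · exact hf π hπ hπm hπf h
    · have h2 := hM p hpp.out (prime_dvd_natDegree hh₁ p hpp.out h)
      have h3 : p ∣ Nat.card k := by
        rw [card_k (p := p)]
        exact dvd_pow_self p Module.finrank_pos.ne'
      have h4 : 0 < Nat.card k := Nat.card_pos
      have h5 := (Nat.dvd_sub_iff_right (by omega) h3).1 h2
      exact hpp.out.one_lt.ne' (Nat.dvd_one.1 h5)
  unfold asTrace
  have e0 : (π.comp (h₀.comp (X ^ m + C c))).nextCoeff = 0 := by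
    rw [← comp_assoc]
    exact nextCoeff_comp_pow _ hm2 c
  rw [e0]
  set N := (π.comp (h₀.comp (X ^ m + C c))).natDegree with hN
  have e1 : ((-0 : k) - N * w) / r ^ p = (-(N : ZMod p)) • (w / r ^ p) := by
    rw [Algebra.smul_def, map_neg, map_natCast]
    ring
  rw [e1, map_smul, smul_eq_mul]
  refine mul_ne_zero (neg_ne_zero.2 ?_) hT
  rw [Ne, ZMod.natCast_eq_zero_iff]
  exact h1

end towers

section final

variable {k k' K F : Type} [Field k] [Field k'] [Algebra k k'] [Field K] [Algebra k[X] K]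
    [Field F] [Algebra k'[X] F] [IsFractionRing k'[X] F] [Algebra K F]

/-- one quarter of the primes -/
theorem quarter [Fintype k] (hk : ringChar k ≠ 2) {a b : k[X]}
    (hNb : NotNorm b) (hNd : NotNorm (a ^ 2 - 4 * b))
    (hbd : ∀ (c : k) (g : k[X]), b * (a ^ 2 - 4 * b) ≠ C c * g ^ 2) {η : ℝ} (hη : 0 < η) :
    ∃ n0 : ℕ, ∀ n : ℕ, n0 ≤ n → ∃ T : Finset k[X],
      (∀ D ∈ T, D.Monic ∧ Irreducible D ∧ D.natDegree = n ∧ InertIn a b D) ∧
      (1 / 4 - η) * (Fintype.card k : ℝ) ^ n ≤ n * T.card := by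
  obtain ⟨n0, hn⟩ := Pool.Agent.R939.FF.exists_quarter hk (Pool.Agent.R939.FF.ne_sq_of_notNorm hNb)
    (Pool.Agent.R939.FF.ne_sq_of_notNorm hNd) hbd hη
  refine ⟨n0, fun n hnn => ?_⟩
  obtain ⟨T, hT', hc⟩ := hn n hnn
  refine ⟨T, fun D hD => ?_, hc⟩
  obtain ⟨h3, h4, h5, h6⟩ := hT' D hD
  refine ⟨h3, h4, h5, h4.ne_zero, ?_⟩
  intro π hπ hdv r
  have has : Associated π D := (hπ.associated_of_dvd h4 hdv)
  exact ⟨fun h7 => (h6 r).1 (has.symm.dvd.trans h7), fun h7 => (h6 r).2 (has.symm.dvd.trans h7)⟩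

end final

end Pool.Agent.K6.H71.AS
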