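import Mathlib
import Pool.Agent.R939.KM.Km2

/-!
# Base change by Dickson polynomials: irreducibility
-/

set_option autoImplicit false
set_option linter.all false

namespace Pool.Agent.K6.H71.Dick

open Polynomial Pool.Agent.R939.KM IntermediateField

section tower

variable {k W : Type*} [Field k] [Field W] [Algebra k W]

theorem finrank_tower {u v : W} (hu : u ∈ k⟮v⟯) (hv : IsIntegral k v) :
    Module.finrank k k⟮v⟯ = Module.finrank k k⟮u⟯ * (minpoly k⟮u⟯ v).natDegree := by
  have h1 : (k⟮u⟯⟮v⟯).restrictScalars k = k⟮v⟯ := by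
    rw [adjoin_simple_adjoin_simple]
    apply le_antisymm
    · rw [adjoin_le_iff]
      intro z hz
      rcases hz with rfl | hz
      · exact hu
      · rw [Set.mem_singleton_iff] at hz
        rw [hz]
        exact mem_adjoin_simple_self k v
    · exact adjoin_simple_le_iff.2 (subset_adjoin k _ (by simp))
  have h2 : Module.finrank k k⟮v⟯ = Module.finrank k k⟮u⟯⟮v⟯ := by
    rw [← h1]
    rfl
  have hv' : IsIntegral k⟮u⟯ v := hv.tower_top
  rw [h2, ← adjoin.finrank hv', Module.finrank_mul_finrank]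

end tower

section dick

variable {R : Type*} [CommRing R]

theorem dickson_eval (ε y z : R) (h : y * z = ε) (m : ℕ) :
    (dickson 1 ε m).eval (y + z) = y ^ m + z ^ m := by
  induction m using Nat.twoStepInduction with
  | zero => simp [dickson_zero]; norm_num
  | one => simp
  | more n h0 h1 =>
    rw [dickson_add_two, eval_sub, eval_mul, eval_mul, eval_X, eval_C, h0, h1, ← h]
    ring

theorem natDegree_aux (ε : R) [Nontrivial R] (m : ℕ) (hm : 1 ≤ m) :
    (dickson 1 ε m).Monic ∧ (dickson 1 ε m).natDegree = m := by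
  induction m using Nat.strong_induction_on with
  | _ m ih =>
    match m, hm with
    | 1, _ => simp [monic_X]
    | 2, _ =>
      have e : dickson 1 ε 2 = X ^ 2 - C (ε * 2) := by
        have h2 : (C 2 : R[X]) = 2 := map_ofNat C 2
        rw [dickson_two, C_mul, h2]
        push_cast
        ring
      rw [e]
      exact ⟨monic_X_pow_sub_C _ two_ne_zero, natDegree_X_pow_sub_C⟩
    | n + 3, _ =>
      obtain ⟨h1, h2⟩ := ih (n + 2) (by omega) (by omega)
      obtain ⟨h3, h4⟩ := ih (n + 1) (by omega) (by omega)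
      have e : dickson 1 ε (n + 3) = X * dickson 1 ε (n + 2) - C ε * dickson 1 ε (n + 1) :=
        dickson_add_two 1 ε (n + 1)
      have h5 : (X * dickson 1 ε (n + 2)).Monic := monic_X.mul h1
      have h6 : (X * dickson 1 ε (n + 2)).natDegree = n + 3 := by
        rw [natDegree_X_mul h1.ne_zero, h2]
      have h7 : (C ε * dickson 1 ε (n + 1)).natDegree ≤ n + 1 := by
        refine (natDegree_C_mul_le _ _).trans ?_
        rw [h4]
      have h8 : (C ε * dickson 1 ε (n + 1)).degree < (X * dickson 1 ε (n + 2)).degree := by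
        rw [degree_eq_natDegree h5.ne_zero, h6]
        refine lt_of_le_of_lt degree_le_natDegree ?_
        exact_mod_cast (show (C ε * dickson 1 ε (n + 1)).natDegree < n + 3 by omega)
      rw [e]
      refine ⟨h5.sub_of_left h8, ?_⟩
      rw [natDegree_sub_eq_left_of_natDegree_lt (by omega), h6]

end dick

section tr

variable {k : Type*} [Field k]

/-- The polynomial `x ^ n f(x + ε / x)`, `n` the degree of `f`. -/
noncomputable def tr (ε : k) (f : k[X]) : k[X] :=
  ∑ i ∈ Finset.range (f.natDegree + 1), C (f.coeff i) * (X ^ 2 + C ε) ^ i * X ^ (f.natDegree - i)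

theorem tr_eval {W : Type*} [Field W] [Algebra k W] (ε : k) (f : k[X]) {β : W} (hβ : β ≠ 0) :
    aeval β (tr ε f) = β ^ f.natDegree * aeval (β + algebraMap k W ε / β) f := by
  rw [tr, map_sum]
  rw [aeval_eq_sum_range, Finset.mul_sum]
  apply Finset.sum_congr rfl
  intro i hi
  have hi' : i ≤ f.natDegree := by
    rw [Finset.mem_range] at hi
    omega
  simp only [map_mul, map_pow, map_add, aeval_X, aeval_C, Algebra.smul_def]
  have e1 : β ^ f.natDegree = β ^ i * β ^ (f.natDegree - i) := by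
    rw [← pow_add]
    congr 1
    omega
  have e2 : β ^ 2 + algebraMap k W ε = β * (β + algebraMap k W ε / β) := by
    field_simp
  rw [e1, e2, mul_pow]
  ring

end tr

section irr

variable {k : Type} [Field k]

theorem irr_dickson_aux {W : Type} [Field W] [Algebra k W] [IsAlgClosed W]
    [Algebra.IsAlgebraic k W] {π f : k[X]} (hπ : Irreducible π) (hπf : π ∣ f) {ε : k} (hε : ε ^ 2 = 1)
    {m : ℕ} (hm : Odd m) (h : ∀ ℓ : ℕ, ℓ.Prime → ℓ ∣ m → NoPowerRoot (tr ε f) ℓ) :
    Irreducible (π.comp (dickson 1 ε m)) := by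
  classical
  have hm0 : 1 ≤ m := hm.pos
  obtain ⟨hDm, hDd⟩ := natDegree_aux ε m hm0
  have hπd : 0 < π.natDegree := hπ.natDegree_pos
  have hε0 : ε ≠ 0 := by
    rintro rfl
    norm_num at hε
  obtain ⟨α, hα⟩ := IsAlgClosed.exists_aeval_eq_zero W π (degree_pos_of_irreducible hπ).ne'
  set e : W := algebraMap k W ε with he
  have he2 : e ^ 2 = 1 := by rw [he, ← map_pow, hε, map_one]
  have he0 : e ≠ 0 := by
    intro h0
    rw [h0] at he2
    norm_num at he2
  obtain ⟨β, hβ⟩ : ∃ β : W, β ^ 2 - α * β + e = 0 := by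
    obtain ⟨β, hβ⟩ := IsAlgClosed.exists_root (X ^ 2 - C α * X + C e : W[X]) (by
      have : (X ^ 2 - C α * X + C e : W[X]).natDegree = 2 := by compute_degree!
      rw [degree_eq_natDegree (by rintro h0; rw [h0] at this; simp at this), this]
      norm_num)
    refine ⟨β, ?_⟩
    simpa [IsRoot.def] using hβ
  have hβ0 : β ≠ 0 := by
    rintro rfl
    apply he0
    simpa using hβ
  have hαβ : α = β + e / β := by
    field_simp
    linear_combination (-1 : W) * hβ
  obtain ⟨γ, hγ⟩ := IsAlgClosed.exists_pow_nat_eq β hm0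
  have hγ0 : γ ≠ 0 := by
    rintro rfl
    rw [zero_pow (by omega)] at hγ
    exact hβ0 hγ.symm
  set x : W := γ + e / γ with hx
  have hem : e ^ m = e := by
    obtain ⟨r, rfl⟩ := hm
    rw [pow_succ, pow_mul, he2, one_pow, one_mul]
  have hDx : aeval x (dickson 1 ε m) = α := by
    have h1 : aeval x (dickson 1 ε m) = (dickson 1 e m).eval x := by
      rw [← map_dickson (algebraMap k W), eval_map_algebraMap]
    rw [h1, hx, dickson_eval e γ (e / γ) (by field_simp) m, div_pow, hγ, hem, hαβ]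
  have hint : ∀ z : W, IsIntegral k z := fun z => Algebra.IsIntegral.isIntegral z
  have mem_self : ∀ z : W, z ∈ k⟮z⟯ := fun z => mem_adjoin_simple_self k z
  have hmem_alg : ∀ (z : W), e ∈ k⟮z⟯ := fun z => (k⟮z⟯).algebraMap_mem ε
  have hαβm : α ∈ k⟮β⟯ := by
    rw [hαβ]
    exact add_mem (mem_self β) (div_mem (hmem_alg β) (mem_self β))
  have hβγ : β ∈ k⟮γ⟯ := by
    rw [← hγ]
    exact pow_mem (mem_self γ) m
  have hxγ : x ∈ k⟮γ⟯ := by
    rw [hx]
    exact add_mem (mem_self γ) (div_mem (hmem_alg γ) (mem_self γ))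
  have hαx : α ∈ k⟮x⟯ := by
    rw [← hDx]
    have h1 : (⟨x, mem_self x⟩ : k⟮x⟯).1 = x := rfl
    have h2 := (k⟮x⟯.val.toRingHom.toFun (aeval (⟨x, mem_self x⟩ : k⟮x⟯) (dickson 1 ε m)))
    have h3 : aeval x (dickson 1 ε m) =
        ((aeval (⟨x, mem_self x⟩ : k⟮x⟯) (dickson 1 ε m) : k⟮x⟯) : W) := by
      have := Polynomial.aeval_algHom_apply (k⟮x⟯.val) (⟨x, mem_self x⟩ : k⟮x⟯) (dickson 1 ε m)
      exact this
    rw [h3]
    exact (aeval (⟨x, mem_self x⟩ : k⟮x⟯) (dickson 1 ε m)).2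
  have hπmin : Module.finrank k k⟮α⟯ = π.natDegree := by
    rw [adjoin.finrank (hint α)]
    have h1 := minpoly.eq_of_irreducible hπ hα
    rw [← h1, natDegree_mul hπ.ne_zero (C_ne_zero.2 (inv_ne_zero (leadingCoeff_ne_zero.2
      hπ.ne_zero))), natDegree_C, add_zero]
  -- degrees
  have d1 := finrank_tower hαβm (hint β)
  have d2 := finrank_tower hβγ (hint γ)
  have d3 := finrank_tower hxγ (hint γ)
  have d4 := finrank_tower hαx (hint x)
  -- `β` over `α`
  have b1 : (minpoly k⟮α⟯ β).natDegree ≤ 2 := by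
    set α' : k⟮α⟯ := ⟨α, mem_self α⟩
    have hp : (X ^ 2 - C α' * X + C (algebraMap k k⟮α⟯ ε) : k⟮α⟯[X]).natDegree = 2 := by
      compute_degree!
    have hz : aeval β (X ^ 2 - C α' * X + C (algebraMap k k⟮α⟯ ε) : k⟮α⟯[X]) = 0 := by
      simp only [map_add, map_sub, map_mul, map_pow, aeval_X, aeval_C]
      exact hβ
    have := natDegree_le_of_dvd (minpoly.dvd _ _ hz) (by
      intro h0; rw [h0] at hp; simp at hp)
    omega
  have b1' : 0 < (minpoly k⟮α⟯ β).natDegree := minpoly.natDegree_pos (hint β).tower_top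
  -- `γ` over `x`
  have b2 : (minpoly k⟮x⟯ γ).natDegree ≤ 2 := by
    set x' : k⟮x⟯ := ⟨x, mem_self x⟩
    have hp : (X ^ 2 - C x' * X + C (algebraMap k k⟮x⟯ ε) : k⟮x⟯[X]).natDegree = 2 := by
      compute_degree!
    have hz : aeval γ (X ^ 2 - C x' * X + C (algebraMap k k⟮x⟯ ε) : k⟮x⟯[X]) = 0 := by
      simp only [map_add, map_sub, map_mul, map_pow, aeval_X, aeval_C]
      show γ ^ 2 - x * γ + e = 0
      rw [hx]
      field_simp
      ring
    have := natDegree_le_of_dvd (minpoly.dvd _ _ hz) (by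
      intro h0; rw [h0] at hp; simp at hp)
    omega
  have b2' : 0 < (minpoly k⟮x⟯ γ).natDegree := minpoly.natDegree_pos (hint γ).tower_top
  -- `γ` over `β`
  have b3 : (minpoly k⟮β⟯ γ).natDegree = m := by
    set β' : k⟮β⟯ := ⟨β, mem_self β⟩ with hβ'
    have hirr : Irreducible (X ^ m - C β' : k⟮β⟯[X]) := by
      refine X_pow_sub_C_irreducible_of_odd hm ?_
      intro ℓ hℓ hℓm y hy
      have hρ : Irreducible (minpoly k β) := minpoly.irreducible (hint β)
      have hρf : minpoly k β ∣ tr ε f := by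
        apply minpoly.dvd
        rw [tr_eval ε f hβ0, ← he, ← hαβ]
        obtain ⟨r, rfl⟩ := hπf
        rw [map_mul, hα, zero_mul, mul_zero]
      let E := (adjoinRootEquivAdjoin k (hint β)).symm
      have h2 : E (AdjoinSimple.gen k β) = AdjoinRoot.root (minpoly k β) := by
        rw [AlgEquiv.symm_apply_eq]
        exact (adjoinRootEquivAdjoin_apply_root k (hint β)).symm
      apply h ℓ hℓ hℓm (minpoly k β) hρ hρf (E y)
      rw [← map_pow, hy]
      exact h2
    have hz : aeval γ (X ^ m - C β' : k⟮β⟯[X]) = 0 := by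
      simp only [map_sub, map_pow, aeval_X, aeval_C]
      show γ ^ m - β = 0
      rw [hγ, sub_self]
    rw [← minpoly.eq_of_irreducible_of_monic hirr hz (monic_X_pow_sub_C _ (by omega)),
      natDegree_X_pow_sub_C]
  -- `x` is a root
  have hroot : aeval x (π.comp (dickson 1 ε m)) = 0 := by
    rw [aeval_comp, hDx, hα]
  have hne : π.comp (dickson 1 ε m) ≠ 0 := by
    intro h0
    have := congrArg natDegree h0
    rw [natDegree_comp, hDd, natDegree_zero] at this
    have h5 := Nat.mul_pos hπd hm0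
    omega
  have hle : (minpoly k x).natDegree ≤ π.natDegree * m := by
    have := natDegree_le_of_dvd (minpoly.dvd _ _ hroot) hne
    rwa [natDegree_comp, hDd] at this
  have hxx := adjoin.finrank (hint x)
  have hfin : (minpoly k x).natDegree = π.natDegree * m := by
    rw [d2, b3, d1, hπmin] at d3
    rw [hπmin] at d4
    rw [hxx] at d3 d4
    set n' := (minpoly k⟮α⟯ x).natDegree
    set d := (minpoly k⟮α⟯ β).natDegree
    set e' := (minpoly k⟮x⟯ γ).natDegree
    rw [d4] at d3 hle ⊢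
    have h5 : d * m = n' * e' := by
      apply Nat.eq_of_mul_eq_mul_left hπd
      linear_combination d3
    have h6 : n' ≤ m := Nat.le_of_mul_le_mul_left hle hπd
    congr 1
    interval_cases d
    · interval_cases e'
      · omega
      · exfalso
        obtain ⟨r, hr⟩ := hm
        omega
    · interval_cases e'
      · omega
      · omega
  have hassoc : Associated (minpoly k x) (π.comp (dickson 1 ε m)) := by
    refine associated_of_dvd_of_natDegree_le (minpoly.dvd _ _ hroot) hne ?_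
    rw [natDegree_comp, hDd, hfin]
  exact hassoc.irreducible (minpoly.irreducible (hint x))

theorem irr_dickson {π f : k[X]} (hπ : Irreducible π) (hπf : π ∣ f) {ε : k} (hε : ε ^ 2 = 1)
    {m : ℕ} (hm : Odd m) (h : ∀ ℓ : ℕ, ℓ.Prime → ℓ ∣ m → NoPowerRoot (tr ε f) ℓ) :
    Irreducible (π.comp (dickson 1 ε m)) :=
  irr_dickson_aux (W := AlgebraicClosure k) hπ hπf hε hm h

end irr

section main

variable {k k' K F : Type} [Field k] [Field k'] [Algebra k k'] [Field K] [Algebra k[X] K]
    [Field F] [Algebra k'[X] F] [IsFractionRing k'[X] F] [Algebra K F]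

open Pool.Agent.R939.EI Pool.Agent.TH115.GD

/-- **Dickson covers.** -/
theorem dickson_covers [PerfectField k] (hT : IsTower k k' K F) (h2 : (2 : k) ≠ 0) {a b D : k[X]}
    (hNb : NotNorm b) (hNd : NotNorm (a ^ 2 - 4 * b)) (hO : OnlyTrivial a b)
    (hO' : OnlyTrivial (-2 * a) (a ^ 2 - 4 * b)) (hD : InertIn a b D) {ε : k} (hε : ε ^ 2 = 1)
    {c : k} (hc : c ≠ 0) {m : ℕ} (hm : Odd m)
    (hp : ∀ ℓ : ℕ, ℓ.Prime → ℓ ∣ m → NoPowerRoot (tr ε (b * (a ^ 2 - 4 * b) * D)) ℓ) :
    TateAtTwo (F := F) k' (crvT (algebraMap k[X] K ((C c * (a * D)).comp (dickson 1 ε m)))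
      (algebraMap k[X] K ((C (c ^ 2) * (b * D ^ 2)).comp (dickson 1 ε m)))) := by
  have hb0 : b ≠ 0 := by
    rintro rfl
    exact (hNb 0 1 0 0 (by simp)).1 rfl
  have hd0 : a ^ 2 - 4 * b ≠ 0 := by
    intro h0
    exact (hNd 0 1 0 0 (by rw [h0]; simp)).1 rfl
  refine twist_main hT h2 hb0 hd0 hNb hNd hO hO' hD hc ?_ ?_
  · rw [(natDegree_aux ε m hm.pos).2]
    exact hm
  · intro π hπ hdv
    have h3 := irr_dickson hπ hdv hε hm hp
    exact ⟨h3, PerfectField.separable_of_irreducible h3⟩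

theorem tr_ne_zero {f : k[X]} (hf : f ≠ 0) (ε : k) (hε : ε ^ 2 = 1) : tr ε f ≠ 0 := by
  intro h0
  have hε0 : ε ≠ 0 := by
    rintro rfl
    norm_num at hε
  -- the constant coefficient
  have h1 : (tr ε f).eval 0 = f.leadingCoeff * ε ^ f.natDegree := by
    rw [tr, eval_finset_sum, Finset.sum_eq_single f.natDegree]
    · simp
    · intro i hi hne
      rw [Finset.mem_range] at hi
      have : f.natDegree - i ≠ 0 := by omega
      simp [this]
    · intro h
      simp at h
  rw [h0, eval_zero] at h1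
  exact mul_ne_zero (leadingCoeff_ne_zero.2 hf) (pow_ne_zero _ hε0) h1.symm

theorem coprime_tr_aux {W : Type} [Field W] [Algebra k W] [IsAlgClosed W] {f : k[X]} (hf : f ≠ 0)
    {ε : k} (hε : ε ^ 2 = 1) {n : ℕ} (h : IsCoprime f (dickson 1 ε (2 * n) - 2)) :
    IsCoprime (tr ε f) (X * (X ^ n - 1)) := by
  have hε0 : ε ≠ 0 := by
    rintro rfl
    norm_num at hε
  rw [isCoprime_iff_aeval_ne_zero_of_isAlgClosed k W]
  intro β
  by_contra hcon
  push Not at hcon
  obtain ⟨hc1, hc2⟩ := hcon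
  have hβ0 : β ≠ 0 := by
    rintro rfl
    have h1 : (tr ε f).eval 0 = f.leadingCoeff * ε ^ f.natDegree := by
      rw [tr, eval_finset_sum, Finset.sum_eq_single f.natDegree]
      · simp
      · intro i hi hne
        rw [Finset.mem_range] at hi
        have : f.natDegree - i ≠ 0 := by omega
        simp [this]
      · intro h
        simp at h
    have h2 : aeval (0 : W) (tr ε f) = algebraMap k W ((tr ε f).eval 0) := by
      rw [← coeff_zero_eq_eval_zero, ← coeff_zero_eq_aeval_zero']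
    rw [h2, h1] at hc1
    exact mul_ne_zero (leadingCoeff_ne_zero.2 hf) (pow_ne_zero _ hε0)
      ((map_eq_zero _).1 hc1)
  have hβn : β ^ n = 1 := by
    simp only [map_mul, map_sub, map_pow, aeval_X, map_one] at hc2
    rcases mul_eq_zero.1 hc2 with h | h
    · exact absurd h hβ0
    · exact sub_eq_zero.1 h
  rw [tr_eval ε f hβ0] at hc1
  rcases mul_eq_zero.1 hc1 with h4 | h4
  · exact pow_ne_zero _ hβ0 h4
  set z : W := β + algebraMap k W ε / β with hz
  obtain ⟨u, v, huv⟩ := h
  have h3 := congrArg (aeval z) huv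
  rw [map_add, map_mul, map_mul, h4, mul_zero, zero_add, map_one] at h3
  have h5 : aeval z (dickson 1 ε (2 * n) - 2) = 0 := by
    have h5 : aeval z (dickson 1 ε (2 * n)) = (dickson 1 (algebraMap k W ε) (2 * n)).eval z := by
      rw [← map_dickson (algebraMap k W), eval_map_algebraMap]
    have hee : (algebraMap k W ε) ^ 2 = 1 := by rw [← map_pow, hε, map_one]
    rw [map_sub, h5, hz, dickson_eval (algebraMap k W ε) β _ (by field_simp) (2 * n), div_pow,
      mul_comm 2 n, pow_mul, hβn, mul_comm n 2, pow_mul (algebraMap k W ε), hee, map_ofNat]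
    norm_num
  rw [h5, mul_zero] at h3
  exact zero_ne_one h3

theorem coprime_tr {f : k[X]} (hf : f ≠ 0)
    {ε : k} (hε : ε ^ 2 = 1) {n : ℕ} (h : IsCoprime f (dickson 1 ε (2 * n) - 2)) :
    IsCoprime (tr ε f) (X * (X ^ n - 1)) :=
  coprime_tr_aux (W := AlgebraicClosure k) hf hε h

/-- **All the Dickson covers of index prime to `N`, over number fields.** -/
theorem dickson_number_field [NumberField k] (hT : IsTower k k' K F) {a b D : k[X]}
    (hNb : NotNorm b) (hNd : NotNorm (a ^ 2 - 4 * b)) (hO : OnlyTrivial a b)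
    (hO' : OnlyTrivial (-2 * a) (a ^ 2 - 4 * b)) (hD : InertIn a b D)
    (h0 : ∀ ε : k, ε ^ 2 = 1 → ∀ n : ℕ, 0 < n →
      IsCoprime (b * (a ^ 2 - 4 * b) * D) (dickson 1 ε (2 * n) - 2)) :
    ∃ N : ℕ, N ≠ 0 ∧ ∀ m : ℕ, Nat.Coprime m N → ∀ ε : k, ε ^ 2 = 1 → ∀ c : k, c ≠ 0 →
      TateAtTwo (F := F) k' (crvT (algebraMap k[X] K ((C c * (a * D)).comp (dickson 1 ε m)))
        (algebraMap k[X] K ((C (c ^ 2) * (b * D ^ 2)).comp (dickson 1 ε m)))) := by
  have hb0 : b ≠ 0 := by
    rintro rfl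
    exact (hNb 0 1 0 0 (by simp)).1 rfl
  have hd0 : a ^ 2 - 4 * b ≠ 0 := by
    intro h0
    exact (hNd 0 1 0 0 (by rw [h0]; simp)).1 rfl
  have hf0 : b * (a ^ 2 - 4 * b) * D ≠ 0 := mul_ne_zero (mul_ne_zero hb0 hd0) hD.1
  have key : ∀ ε : k, ε ^ 2 = 1 → ∃ N : ℕ, N ≠ 0 ∧ ∀ ℓ : ℕ, ℓ.Prime → ¬ ℓ ∣ N →
      NoPowerRoot (tr ε (b * (a ^ 2 - 4 * b) * D)) ℓ := fun ε hε =>
    no_power_all (tr_ne_zero hf0 ε hε) fun n hn => coprime_tr hf0 hε (h0 ε hε n hn)
  obtain ⟨N1, hN1, hN1'⟩ := key 1 (by norm_num)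
  obtain ⟨N2, hN2, hN2'⟩ := key (-1) (by norm_num)
  refine ⟨2 * (N1 * N2), mul_ne_zero two_ne_zero (mul_ne_zero hN1 hN2), ?_⟩
  intro m hm ε hε c hc
  have hm2 : Nat.Coprime m 2 := hm.coprime_mul_right_right
  have hmN : Nat.Coprime m (N1 * N2) := hm.coprime_mul_left_right
  have hm1 : Nat.Coprime m N1 := hmN.coprime_mul_right_right
  have hm3 : Nat.Coprime m N2 := hmN.coprime_mul_left_right
  refine dickson_covers hT two_ne_zero hNb hNd hO hO' hD hε hc (Nat.coprime_two_right.1 hm2) ?_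
  intro ℓ hℓ hℓm
  have hor : ε = 1 ∨ ε = -1 := by
    have : (ε - 1) * (ε + 1) = 0 := by linear_combination hε
    rcases mul_eq_zero.1 this with h | h
    · exact Or.inl (sub_eq_zero.1 h)
    · exact Or.inr (eq_neg_of_add_eq_zero_left h)
  rcases hor with h | h
  · rw [h]
    exact hN1' ℓ hℓ fun hd => Nat.not_coprime_of_dvd_of_dvd hℓ.one_lt hℓm hd hm1
  · rw [h]
    exact hN2' ℓ hℓ fun hd => Nat.not_coprime_of_dvd_of_dvd hℓ.one_lt hℓm hd hm3

end main

end Pool.Agent.K6.H71.Dick
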