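import Mathlib
import Pool.Agent.R939.KM.Fin
import Pool.Agent.K6.H71.Dick

/-!
# Base change by Dickson polynomials: finite fields
-/

set_option autoImplicit false
set_option linter.all false

namespace Pool.Agent.K6.H71.Dick

open Polynomial Finset Pool.Agent.R939.KM Pool.Agent.R939.EI Pool.Agent.R939.FF
  Pool.Agent.TH115.GD

section fixed

/-- the fixed points of the Frobenius map -/
theorem mem_of_pow {M L : Type} [Field M] [Fintype M] [Field L] (φ : M →+* L) (z : L)
    (h : z ^ Fintype.card M = z) : ∃ y : M, φ y = z := by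
  classical
  have hq : 1 < Fintype.card M := Fintype.one_lt_card
  set R : Finset L := (X ^ Fintype.card M - X : L[X]).roots.toFinset with hR
  have hne : (X ^ Fintype.card M - X : L[X]) ≠ 0 := FiniteField.X_pow_card_sub_X_ne_zero _ hq
  have h1 : (univ.image φ) ⊆ R := by
    intro u hu
    obtain ⟨y, -, rfl⟩ := mem_image.1 hu
    rw [hR, Multiset.mem_toFinset, mem_roots hne]
    simp [IsRoot, ← map_pow, FiniteField.pow_card]
  have h2 : R.card ≤ (univ.image φ).card := by
    rw [card_image_of_injective _ φ.injective, card_univ]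
    refine (Multiset.toFinset_card_le _).trans ((card_roots' _).trans ?_)
    rw [FiniteField.X_pow_card_sub_X_natDegree_eq _ hq]
  have h3 := eq_of_subset_of_card_le h1 h2
  have h4 : z ∈ R := by
    rw [hR, Multiset.mem_toFinset, mem_roots hne]
    simp [IsRoot, h]
  rw [← h3] at h4
  obtain ⟨y, -, hy⟩ := mem_image.1 h4
  exact ⟨y, hy⟩

theorem aeval_dickson {k W : Type} [Field k] [Field W] [Algebra k W] (ε : k) (m : ℕ) (x : W) :
    aeval x (dickson 1 ε m) = (dickson 1 (algebraMap k W ε) m).eval x := by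
  rw [← map_dickson (algebraMap k W), eval_map_algebraMap]

theorem pow_odd_eq {R : Type} [CommRing R] {e : R} (he : e ^ 2 = 1) {m : ℕ} (hm : Odd m) :
    e ^ m = e := by
  obtain ⟨r, rfl⟩ := hm
  rw [pow_succ, pow_mul, he, one_pow, one_mul]

theorem tr_coeff_zero {k : Type} [Field k] {f : k[X]} (ε : k) :
    (tr ε f).eval 0 = f.leadingCoeff * ε ^ f.natDegree := by
  rw [tr, eval_finset_sum, Finset.sum_eq_single f.natDegree]
  · simp
  · intro i hi hne
    rw [Finset.mem_range] at hi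
    have : f.natDegree - i ≠ 0 := by omega
    simp [this]
  · intro h
    simp at h

theorem root_ne_zero {k L : Type} [Field k] [Field L] [Algebra k L] {f : k[X]} (hf : f ≠ 0) {ε : k}
    (hε : ε ^ 2 = 1) {β : L} (hβ : aeval β (tr ε f) = 0) : β ≠ 0 := by
  rintro rfl
  have hε0 : ε ≠ 0 := by
    rintro rfl
    norm_num at hε
  have h2 : aeval (0 : L) (tr ε f) = algebraMap k L ((tr ε f).eval 0) := by
    rw [← coeff_zero_eq_eval_zero, ← coeff_zero_eq_aeval_zero']
  rw [h2, tr_coeff_zero] at hβ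
  exact mul_ne_zero (leadingCoeff_ne_zero.2 hf) (pow_ne_zero _ hε0) ((map_eq_zero _).1 hβ)

/-- The condition on the powers, from the values of the Dickson polynomial. -/
theorem noPowerRoot_tr {k : Type} [Field k] [Fintype k] {ε : k} (hε : ε ^ 2 = 1) {ℓ : ℕ}
    (hℓ : Odd ℓ) {D : k[X]} (hD : Irreducible D)
    (h : ∀ v : AdjoinRoot D, aeval v (dickson 1 ε ℓ) ≠ AdjoinRoot.root D) :
    NoPowerRoot (tr ε D) ℓ := by
  classical
  intro π hπ hdv y hy
  haveI : Fact (Irreducible D) := ⟨hD⟩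
  haveI : Fact (Irreducible π) := ⟨hπ⟩
  haveI : Module.Finite k (AdjoinRoot D) := (AdjoinRoot.powerBasis hD.ne_zero).finite
  haveI : Finite (AdjoinRoot D) := Module.finite_of_finite k
  letI : Fintype (AdjoinRoot D) := Fintype.ofFinite _
  set β : AdjoinRoot π := AdjoinRoot.root π with hβ
  set e : AdjoinRoot π := algebraMap k _ ε with he
  have he2 : e ^ 2 = 1 := by rw [he, ← map_pow, hε, map_one]
  have hee : e * e = 1 := by rw [← sq, he2]
  have he0 : e ≠ 0 := by
    intro h0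
    rw [h0] at he2
    norm_num at he2
  have h1 : aeval β (tr ε D) = 0 := by
    obtain ⟨r, hr⟩ := hdv
    rw [hr, map_mul]
    have : aeval β π = 0 := by
      rw [hβ, AdjoinRoot.aeval_eq, AdjoinRoot.mk_self]
    rw [this, zero_mul]
  have hβ0 : β ≠ 0 := root_ne_zero hD.ne_zero hε h1
  rw [tr_eval ε D hβ0] at h1
  have hα : aeval (β + e / β) D = 0 := (mul_eq_zero.1 h1).resolve_left (pow_ne_zero _ hβ0)
  set α : AdjoinRoot π := β + e / β with hαd
  let φ : AdjoinRoot D →ₐ[k] AdjoinRoot π := AdjoinRoot.liftAlgHom D (Algebra.ofId k _) α hα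
  have hφ : φ (AdjoinRoot.root D) = α := AdjoinRoot.liftAlgHom_root ..
  set Q := Fintype.card (AdjoinRoot D) with hQ
  have hy0 : y ≠ 0 := by
    rintro rfl
    rw [zero_pow hℓ.pos.ne'] at hy
    exact hβ0 hy.symm
  have hfr : ∀ u v : AdjoinRoot π, (u + v) ^ Q = u ^ Q + v ^ Q := by
    obtain ⟨p, hp⟩ := CharP.exists (AdjoinRoot D)
    obtain ⟨n, hpp, hn⟩ := FiniteField.card (AdjoinRoot D) p
    haveI : Fact p.Prime := ⟨hpp⟩
    haveI : CharP (AdjoinRoot π) p := charP_of_injective_ringHom φ.toRingHom.injective p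
    intro u v
    rw [hQ, hn]
    exact add_pow_char_pow u v p n
  have hαQ : α ^ Q = α := by
    rw [← hφ, ← map_pow, FiniteField.pow_card]
  have heQ : e ^ Q = e := by
    have : e = φ (algebraMap k _ ε) := (φ.commutes ε).symm
    rw [this, ← map_pow, FiniteField.pow_card]
  -- it is enough to find a fixed value
  have key : ∀ w : AdjoinRoot π, w ≠ 0 → w ^ ℓ = β → (w + e / w) ^ Q = w + e / w → False := by
    intro w hw0 hw hwQ
    obtain ⟨v, hv⟩ := mem_of_pow φ.toRingHom _ hwQ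
    apply h v
    apply φ.toRingHom.injective
    show φ (aeval v (dickson 1 ε ℓ)) = φ (AdjoinRoot.root D)
    have hv' : φ v = w + e / w := hv
    rw [hφ, ← Polynomial.aeval_algHom_apply, hv', aeval_dickson, ← he,
      dickson_eval e w (e / w) (by field_simp) ℓ, div_pow, hw, pow_odd_eq he2 hℓ]
  -- the two cases
  have hβQ : (β ^ Q - β) * (β ^ Q - e / β) = 0 := by
    have h3 : β * β - α * β + e = 0 := by
      rw [hαd]
      field_simp
      ring
    have h4 : (β * β + (e - α * β)) ^ Q = 0 := by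
      have : β * β + (e - α * β) = 0 := by linear_combination h3
      rw [this, zero_pow Fintype.card_ne_zero]
    have h5 : (e - α * β) ^ Q = e - α * β ^ Q := by
      have h6 := hfr (e - α * β) (α * β)
      rw [sub_add_cancel, heQ, mul_pow, hαQ] at h6
      linear_combination -h6
    rw [hfr, h5, mul_pow] at h4
    have h7 : α = β + e / β := hαd
    have h8 : β ^ Q * β ^ Q + (e - (β + e / β) * β ^ Q) = 0 := by rw [← h7]; exact h4
    have h9 : β * (e / β) = e := by field_simp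
    linear_combination h8 + h9
  have hψ : ∃ ψ : AdjoinRoot π →ₐ[k] AdjoinRoot π, ∀ z, ψ z = z ^ Q := by
    refine ⟨{ toFun := fun z => z ^ Q
              map_one' := one_pow _
              map_mul' := fun u v => mul_pow u v _
              map_zero' := zero_pow Fintype.card_ne_zero
              map_add' := hfr
              commutes' := ?_ }, fun z => rfl⟩
    intro c
    show (algebraMap k _ c) ^ Q = algebraMap k _ c
    rw [← φ.commutes c, ← map_pow, FiniteField.pow_card]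
  obtain ⟨ψ, hψ⟩ := hψ
  rcases mul_eq_zero.1 hβQ with h3 | h3
  · -- `β` is in the small field
    have h4 : ψ = AlgHom.id k _ := by
      apply AdjoinRoot.algHom_ext
      rw [hψ]
      exact sub_eq_zero.1 h3
    have h5 : ∀ z, z ^ Q = z := fun z => by rw [← hψ, h4]; rfl
    exact key y hy0 hy (h5 _)
  · have h3' : β ^ Q = e / β := sub_eq_zero.1 h3
    have h4 : ψ.comp ψ = AlgHom.id k _ := by
      apply AdjoinRoot.algHom_ext
      show ψ (ψ β) = β
      rw [hψ, hψ, h3', div_pow, h3', heQ]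
      field_simp
    have h5 : ∀ z, (z ^ Q) ^ Q = z := fun z => by
      have := DFunLike.congr_fun h4 z
      rw [AlgHom.comp_apply, hψ, hψ] at this
      exact this
    set ζ := y ^ Q * y * e with hζ
    have hyQ0 : y ^ Q ≠ 0 := pow_ne_zero _ hy0
    have hζ0 : ζ ≠ 0 := mul_ne_zero (mul_ne_zero hyQ0 hy0) he0
    have hζℓ : ζ ^ ℓ = 1 := by
      rw [hζ, mul_pow, mul_pow, ← pow_mul, mul_comm Q, pow_mul, hy, h3', pow_odd_eq he2 hℓ]
      have : e / β * β = e := by field_simp
      rw [this, hee]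
    have hζQ : ζ ^ Q = ζ := by
      rw [hζ, mul_pow, mul_pow, h5, heQ]
      ring
    obtain ⟨j, hj⟩ := hℓ
    have hw : (y * ζ ^ j) ^ ℓ = β := by
      rw [mul_pow, ← pow_mul, mul_comm j, pow_mul, hζℓ, one_pow, mul_one, hy]
    have hw0 : y * ζ ^ j ≠ 0 := mul_ne_zero hy0 (pow_ne_zero _ hζ0)
    have hwQ : (y * ζ ^ j) ^ Q = e / (y * ζ ^ j) := by
      rw [eq_div_iff hw0, mul_pow, ← pow_mul, mul_comm j, pow_mul, hζQ]
      have h6 : y ^ Q * y = ζ * e := by
        rw [hζ, mul_assoc, hee, mul_one]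
      have h7 : ζ ^ j * ζ ^ j * ζ = 1 := by
        rw [← hζℓ, hj]
        ring
      calc y ^ Q * ζ ^ j * (y * ζ ^ j) = (y ^ Q * y) * (ζ ^ j * ζ ^ j) := by ring
        _ = e * (ζ ^ j * ζ ^ j * ζ) := by rw [h6]; ring
        _ = e := by rw [h7, mul_one]
    refine key (y * ζ ^ j) hw0 hw ?_
    rw [hfr, hwQ, div_pow, heQ, hwQ]
    have : e / (e / (y * ζ ^ j)) = y * ζ ^ j := by field_simp
    rw [this, add_comm]

end fixed

section fibre

variable {E : Type} [Field E] [Fintype E]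

/-- The values of the Dickson polynomial with many preimages. -/
theorem fibre_aux {W : Type} [Field W] [Algebra E W] [IsAlgClosed W] [DecidableEq E]
    (hE : ringChar E ≠ 2) {e : E} (he2 : e ^ 2 = 1) {ℓ : ℕ}
    (hℓ : ℓ.Prime) (hℓ2 : ℓ ≠ 2) {s : ℤ} (hs : s = 1 ∨ s = -1)
    (hd : (ℓ : ℤ) ∣ (Fintype.card E : ℤ) - s)
    {v x : E} (hv : (dickson 1 e ℓ).eval v = x) (hx : quadraticChar E (x ^ 2 - 4 * e) = s) :
    ℓ ≤ (univ.filter fun u : E => (dickson 1 e ℓ).eval u = x).card := by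
  classical
  have hodd : Odd ℓ := hℓ.odd_of_ne_two hℓ2
  let φ : E →+* W := algebraMap E W
  set Q := Fintype.card E with hQ
  have hee : e * e = 1 := by rw [← sq, he2]
  have he0 : e ≠ 0 := by
    intro h0
    rw [h0] at he2
    norm_num at he2
  set e' : W := φ e with he'
  have he2' : e' ^ 2 = 1 := by rw [he', ← map_pow, he2, map_one]
  have he0' : e' ≠ 0 := (_root_.map_ne_zero φ).2 he0
  have h20 : (2 : W) ≠ 0 := by
    have h21 : (2 : E) ≠ 0 := Ring.two_ne_zero hE
    intro h0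
    apply h21
    apply φ.injective
    rw [map_ofNat, map_zero, h0]
  obtain ⟨p, hp⟩ := CharP.exists E
  obtain ⟨n, hpp, hn⟩ := FiniteField.card E p
  haveI : Fact p.Prime := ⟨hpp⟩
  haveI : CharP W p := charP_of_injective_ringHom φ.injective p
  have hfr : ∀ u v : W, (u + v) ^ Q = u ^ Q + v ^ Q := by
    intro u v
    rw [hQ, hn]
    exact add_pow_char_pow u v p n
  have hQodd : Odd Q := by
    rw [hQ, hn]
    refine Odd.pow (hpp.odd_of_ne_two ?_)
    rintro rfl
    apply hE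
    exact (ringChar.eq_iff (p := 2)).2 hp
  have hsub : ∀ u v : W, (u - v) ^ Q = u ^ Q - v ^ Q := by
    intro u v
    rw [sub_eq_add_neg, hfr, hQodd.neg_pow, sub_eq_add_neg]
  have hφQ : ∀ z : E, (φ z) ^ Q = φ z := fun z => by rw [← map_pow, FiniteField.pow_card]
  have heQ : e' ^ Q = e' := hφQ e
  -- the root of `X ^ 2 - v X + e`
  obtain ⟨w, hw⟩ : ∃ w : W, w ^ 2 - φ v * w + e' = 0 := by
    obtain ⟨w, hw⟩ := IsAlgClosed.exists_root (X ^ 2 - C (φ v) * X + C e' : W[X]) (by
      have : (X ^ 2 - C (φ v) * X + C e' : W[X]).natDegree = 2 := by compute_degree!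
      rw [degree_eq_natDegree (by rintro h0; rw [h0] at this; simp at this), this]
      norm_num)
    refine ⟨w, ?_⟩
    simpa [IsRoot.def] using hw
  have hw0 : w ≠ 0 := by
    rintro rfl
    apply he0'
    simpa using hw
  have hvw : φ v = w + e' / w := by
    field_simp
    linear_combination (-1 : W) * hw
  have hdick : ∀ (u : E) (z : W), z ≠ 0 → φ u = z + e' / z →
      φ ((dickson 1 e ℓ).eval u) = z ^ ℓ + e' / z ^ ℓ := by
    intro u z hz hu
    have h1 : φ ((dickson 1 e ℓ).eval u) = (dickson 1 e' ℓ).eval (φ u) := by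
      rw [he', ← map_dickson, eval_map, eval₂_hom]
    rw [h1, hu, dickson_eval e' z (e' / z) (by field_simp) ℓ, div_pow, pow_odd_eq he2' hodd]
  have hxw : φ x = w ^ ℓ + e' / w ^ ℓ := by
    rw [← hv]
    exact hdick v w hw0 hvw
  set Δ : W := w ^ ℓ - e' / w ^ ℓ with hΔ
  have hwℓ0 : w ^ ℓ ≠ 0 := pow_ne_zero _ hw0
  have hΔ2 : Δ ^ 2 = φ (x ^ 2 - 4 * e) := by
    rw [map_sub, map_pow, map_mul, map_ofNat, ← he', hxw, hΔ]
    field_simp
    ring
  have hx0 : x ^ 2 - 4 * e ≠ 0 := by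
    intro h0
    rw [h0, MulChar.map_zero] at hx
    rcases hs with h | h <;> rw [h] at hx <;> norm_num at hx
  have hΔ0 : Δ ≠ 0 := by
    intro h0
    rw [h0, zero_pow two_ne_zero] at hΔ2
    exact hx0 (φ.injective (by rw [map_zero, hΔ2]))
  have hΔQ : Δ ^ Q = (s : W) * Δ := by
    have h1 : Δ ^ (Q - 1) = (s : W) := by
      obtain ⟨r, hr⟩ := hQodd
      have h2 : Q - 1 = 2 * (Fintype.card E / 2) := by omega
      have h3 := quadraticChar_eq_pow_of_char_ne_two' hE (x ^ 2 - 4 * e)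
      rw [hx] at h3
      rw [h2, pow_mul, hΔ2, ← map_pow, ← h3]
      simp
    have h2 : Q = Q - 1 + 1 := by
      obtain ⟨r, hr⟩ := hQodd
      omega
    rw [h2, pow_succ, h1]
  -- the roots of unity
  have hcop : (ℓ : W) ≠ 0 := by
    intro h0
    have h1 : (p : ℕ) ∣ ℓ := (CharP.cast_eq_zero_iff W p ℓ).1 h0
    have h2 : p = ℓ := (Nat.prime_dvd_prime_iff_eq hpp hℓ).1 h1
    subst h2
    have h3 : (p : ℤ) ∣ (Q : ℤ) := by
      rw [hQ, hn]
      push_cast
      exact dvd_pow_self _ n.ne_zero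
    have h4 : (p : ℤ) ∣ s := (Int.dvd_iff_dvd_of_dvd_sub hd).1 h3
    have h5 : (p : ℤ) ∣ 1 := by
      rcases hs with h | h
      · rwa [h] at h4
      · rw [h] at h4
        exact (dvd_neg.1 h4)
    have h6 : p ∣ 1 := by exact_mod_cast h5
    exact hpp.one_lt.ne' (Nat.dvd_one.1 h6)
  haveI : NeZero (ℓ : W) := ⟨hcop⟩
  haveI : NeZero ℓ := ⟨hℓ.ne_zero⟩
  obtain ⟨z, hz⟩ := HasEnoughRootsOfUnity.exists_primitiveRoot W ℓ
  have hz0 : z ≠ 0 := hz.ne_zero hℓ.ne_zero
  have hz1 : z ^ ℓ = 1 := hz.pow_eq_one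
  have hℓ1 : 1 ≤ ℓ := hℓ.one_lt.le
  -- the elements
  have hu : ∀ i : ℕ, ∃ u : E, φ u = w * z ^ i + e' / (w * z ^ i) := by
    intro i
    have hwi0 : w * z ^ i ≠ 0 := mul_ne_zero hw0 (pow_ne_zero _ hz0)
    apply mem_of_pow φ
    have hwQ : (w ^ Q - w) * (w ^ Q - e' / w) = 0 := by
      have h3 : (w - φ v) * w = - e' := by linear_combination hw
      have h4 : (w ^ Q - φ v) * w ^ Q = - e' := by
        have h5 := congrArg (fun t => t ^ Q) h3
        simp only [mul_pow, hsub, hφQ, hQodd.neg_pow, heQ] at h5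
        exact h5
      have h9 : w * (e' / w) = e' := by field_simp
      rw [hvw] at h4
      linear_combination h4 + h9
    rcases mul_eq_zero.1 hwQ with h3 | h3
    · have h3' : w ^ Q = w := sub_eq_zero.1 h3
      -- `s = 1`
      have hs1 : s = 1 := by
        rcases hs with h | h
        · exact h
        · exfalso
          have h5 : Δ ^ Q = Δ := by
            rw [hΔ, hsub, div_pow, ← pow_mul, mul_comm ℓ, pow_mul, h3', heQ]
          rw [h5, h] at hΔQ
          push_cast at hΔQ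
          have : (2 : W) * Δ = 0 := by linear_combination hΔQ
          exact mul_ne_zero h20 hΔ0 this
      have hzQ : z ^ Q = z := by
        have h5 : ℓ ∣ Q - 1 := by
          rw [hs1] at hd
          have h6 : ((Q - 1 : ℕ) : ℤ) = (Q : ℤ) - 1 := by
            have : 1 ≤ Q := hQodd.pos
            push_cast [this]
            ring
          rw [← h6] at hd
          exact_mod_cast hd
        obtain ⟨r, hr⟩ := h5
        have h6 : Q = ℓ * r + 1 := by
          have : 1 ≤ Q := hQodd.pos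
          omega
        rw [h6, pow_succ, pow_mul, hz1, one_pow, one_mul]
      have h6 : (w * z ^ i) ^ Q = w * z ^ i := by
        rw [mul_pow, h3', ← pow_mul, mul_comm i, pow_mul, hzQ]
      rw [hfr, div_pow, h6, heQ]
    · have h3' : w ^ Q = e' / w := sub_eq_zero.1 h3
      have hs1 : s = -1 := by
        rcases hs with h | h
        · exfalso
          have h5 : Δ ^ Q = -Δ := by
            rw [hΔ, hsub, div_pow, ← pow_mul, mul_comm ℓ, pow_mul, h3', heQ, div_pow,
              pow_odd_eq he2' hodd]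
            field_simp
            ring
          rw [h5, h] at hΔQ
          push_cast at hΔQ
          have : (2 : W) * Δ = 0 := by linear_combination -hΔQ
          exact mul_ne_zero h20 hΔ0 this
        · exact h
      have hzQ : z ^ Q * z = 1 := by
        have h5 : ℓ ∣ Q + 1 := by
          rw [hs1] at hd
          have h6 : ((Q + 1 : ℕ) : ℤ) = (Q : ℤ) - -1 := by
            push_cast
            ring
          rw [← h6] at hd
          exact_mod_cast hd
        obtain ⟨r, hr⟩ := h5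
        rw [← pow_succ, hr, pow_mul, hz1, one_pow]
      have h6 : (w * z ^ i) ^ Q = e' / (w * z ^ i) := by
        rw [eq_div_iff hwi0, mul_pow, h3', ← pow_mul, mul_comm i, pow_mul]
        calc e' / w * (z ^ Q) ^ i * (w * z ^ i) = (e' / w * w) * (z ^ Q * z) ^ i := by
              rw [mul_pow]; ring
          _ = e' := by
              rw [hzQ, one_pow, mul_one]
              field_simp
      rw [hfr, div_pow, h6, heQ]
      have : e' / (e' / (w * z ^ i)) = w * z ^ i := by field_simp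
      rw [this, add_comm]
  choose u hu using hu
  have h3 : (Finset.range ℓ).image u ⊆ univ.filter fun u : E => (dickson 1 e ℓ).eval u = x := by
    intro t ht
    obtain ⟨i, -, rfl⟩ := mem_image.1 ht
    rw [mem_filter]
    refine ⟨mem_univ _, ?_⟩
    apply φ.injective
    have hwi0 : w * z ^ i ≠ 0 := mul_ne_zero hw0 (pow_ne_zero _ hz0)
    rw [hdick (u i) (w * z ^ i) hwi0 (hu i), hxw]
    have : (w * z ^ i) ^ ℓ = w ^ ℓ := by
      rw [mul_pow, ← pow_mul, mul_comm i, pow_mul, hz1, one_pow, mul_one]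
    rw [this]
  have h5 : ((Finset.range ℓ).image u).card = ℓ := by
    rw [card_image_of_injOn, card_range]
    intro i hi j hj hij
    have hi' := mem_range.1 hi
    have hj' := mem_range.1 hj
    have h6 : w * z ^ i + e' / (w * z ^ i) = w * z ^ j + e' / (w * z ^ j) := by
      rw [← hu i, ← hu j]
      exact congrArg φ hij
    have hwi0 : w * z ^ i ≠ 0 := mul_ne_zero hw0 (pow_ne_zero _ hz0)
    have hwj0 : w * z ^ j ≠ 0 := mul_ne_zero hw0 (pow_ne_zero _ hz0)
    have h7 : (w * z ^ i - w * z ^ j) * ((w * z ^ i) * (w * z ^ j) - e') = 0 := by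
      field_simp at h6
      have h8 : w * z ^ i * (w * z ^ i) * (w * z ^ j) + e' * (w * z ^ j) =
        w * z ^ j * (w * z ^ j) * (w * z ^ i) + e' * (w * z ^ i) := by
        linear_combination w * h6
      linear_combination h8
    rcases mul_eq_zero.1 h7 with h8 | h8
    · have h9 : z ^ i = z ^ j := mul_left_cancel₀ hw0 (sub_eq_zero.1 h8)
      exact hz.pow_inj hi' hj' h9
    · exfalso
      have h9 : w * z ^ i * (w * z ^ j) = e' := sub_eq_zero.1 h8
      have h10 := congrArg (fun t => t ^ ℓ) h9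
      simp only [mul_pow] at h10
      rw [← pow_mul, ← pow_mul, mul_comm i, mul_comm j, pow_mul, pow_mul, hz1, one_pow, one_pow,
        mul_one, pow_odd_eq he2' hodd] at h10
      apply hΔ0
      rw [hΔ, ← h10]
      field_simp
      ring
  calc ℓ = _ := h5.symm
    _ ≤ _ := card_le_card h3

theorem fibre [DecidableEq E] (hE : ringChar E ≠ 2) {e : E} (he2 : e ^ 2 = 1) {ℓ : ℕ}
    (hℓ : ℓ.Prime) (hℓ2 : ℓ ≠ 2) {s : ℤ} (hs : s = 1 ∨ s = -1)
    (hd : (ℓ : ℤ) ∣ (Fintype.card E : ℤ) - s)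
    {v x : E} (hv : (dickson 1 e ℓ).eval v = x) (hx : quadraticChar E (x ^ 2 - 4 * e) = s) :
    ℓ ≤ (univ.filter fun u : E => (dickson 1 e ℓ).eval u = x).card :=
  fibre_aux (W := AlgebraicClosure E) hE he2 hℓ hℓ2 hs hd hv hx

/-- the values of the Dickson polynomial in a set -/
theorem card_values [DecidableEq E] (hE : ringChar E ≠ 2) {e : E} (he2 : e ^ 2 = 1) {ℓ : ℕ}
    (hℓ : ℓ.Prime) (hℓ2 : ℓ ≠ 2) {s : ℤ} (hs : s = 1 ∨ s = -1)
    (hd : (ℓ : ℤ) ∣ (Fintype.card E : ℤ) - s) (A B : Finset E)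
    (hA : ∀ x ∈ A, quadraticChar E (x ^ 2 - 4 * e) = s)
    (hB : ∀ y : E, (dickson 1 e ℓ).eval y ∈ A → y ∈ B) :
    ℓ * (A.filter fun x => ∃ v : E, (dickson 1 e ℓ).eval v = x).card ≤ B.card := by
  classical
  set P := A.filter fun x => ∃ v : E, (dickson 1 e ℓ).eval v = x with hP
  have h2 : ∀ x ∈ P, ℓ ≤ (B.filter fun y => (dickson 1 e ℓ).eval y = x).card := by
    intro x hx
    rw [hP, mem_filter] at hx
    obtain ⟨hxA, v, hv⟩ := hx
    refine (fibre hE he2 hℓ hℓ2 hs hd hv (hA x hxA)).trans (card_le_card ?_)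
    intro y hy
    rw [mem_filter] at hy ⊢
    exact ⟨hB y (by rw [hy.2]; exact hxA), hy.2⟩
  have h6 : P.card * ℓ ≤ ∑ x ∈ P, (B.filter fun y => (dickson 1 e ℓ).eval y = x).card := by
    have := Finset.card_nsmul_le_sum P
      (fun x => (B.filter fun y => (dickson 1 e ℓ).eval y = x).card) ℓ h2
    simpa using this
  rw [mul_comm]
  refine h6.trans ?_
  rw [← card_biUnion]
  · refine card_le_card ?_
    intro y hy
    obtain ⟨x, -, hx⟩ := mem_biUnion.1 hy
    exact (mem_filter.1 hx).1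
  · intro x _ x' _ hne
    rw [Function.onFun, disjoint_left]
    intro y hy hy'
    exact hne ((mem_filter.1 hy).2.symm.trans (mem_filter.1 hy').2)

end fibre

section ext

variable {F E : Type} [Field F] [Fintype F] [Field E] [Fintype E] [Algebra F E]

/-- the points with given values of three characters -/
theorem card_three [DecidableEq E] (hF : ringChar F ≠ 2) {f g h : F[X]} {s : ℤ}
    (hs : s = 1 ∨ s = -1)
    (hf : ∀ (c : F) (r : F[X]), f ≠ C c * r ^ 2) (hg : ∀ (c : F) (r : F[X]), g ≠ C c * r ^ 2)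
    (hfg : ∀ (c : F) (r : F[X]), f * g ≠ C c * r ^ 2) (hh : ∀ (c : F) (r : F[X]), h ≠ C c * r ^ 2)
    (hfh : ∀ (c : F) (r : F[X]), f * h ≠ C c * r ^ 2)
    (hgh : ∀ (c : F) (r : F[X]), g * h ≠ C c * r ^ 2)
    (hfgh : ∀ (c : F) (r : F[X]), f * g * h ≠ C c * r ^ 2) :
    8 * ((univ.filter fun x : E => quadraticChar E (aeval x f) = -1 ∧
      quadraticChar E (aeval x g) = -1 ∧ quadraticChar E (aeval x h) = s).card : ℝ) ≤
      (Fintype.card E : ℝ) + 20 * (f.natDegree + g.natDegree + h.natDegree : ℕ) *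
        Real.sqrt (Fintype.card E) ∧
    (Fintype.card E : ℝ) ≤ 8 * ((univ.filter fun x : E => quadraticChar E (aeval x f) = -1 ∧
      quadraticChar E (aeval x g) = -1 ∧ quadraticChar E (aeval x h) = s).card : ℝ) +
      24 * (f.natDegree + g.natDegree + h.natDegree : ℕ) * Real.sqrt (Fintype.card E) := by
  have hf0 : f ≠ 0 := by
    rintro rfl
    exact hf 0 0 (by simp)
  have hg0 : g ≠ 0 := by
    rintro rfl
    exact hg 0 0 (by simp)
  have hh0 : h ≠ 0 := by
    rintro rfl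
    exact hh 0 0 (by simp)
  have b1 := sum_bound (E := E) hF hf
  have b2 := sum_bound (E := E) hF hg
  have b3 := sum_bound (E := E) hF hfg
  have b4 := sum_bound (E := E) hF hh
  have b5 := sum_bound (E := E) hF hfh
  have b6 := sum_bound (E := E) hF hgh
  have b7 := sum_bound (E := E) hF hfgh
  rw [natDegree_mul hf0 hg0] at b3
  rw [natDegree_mul hf0 hh0] at b5
  rw [natDegree_mul hg0 hh0] at b6
  rw [natDegree_mul (mul_ne_zero hf0 hg0) hh0, natDegree_mul hf0 hg0] at b7
  have z1 := card_zeros (E := E) hf0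
  have z2 := card_zeros (E := E) hg0
  have z3 := card_zeros (E := E) hh0
  set S := univ.filter fun x : E => quadraticChar E (aeval x f) = -1 ∧
      quadraticChar E (aeval x g) = -1 ∧ quadraticChar E (aeval x h) = s with hS
  have hpt : ∀ x : E, 8 * (if quadraticChar E (aeval x f) = -1 ∧ quadraticChar E (aeval x g) = -1 ∧
      quadraticChar E (aeval x h) = s then (1 : ℝ) else 0) ≤
      (1 : ℝ) - (quadraticChar E (aeval x f) : ℝ) - (quadraticChar E (aeval x g) : ℝ)
      + (quadraticChar E (aeval x (f * g)) : ℝ) + s * ((quadraticChar E (aeval x h) : ℝ) -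
      (quadraticChar E (aeval x (f * h)) : ℝ) - (quadraticChar E (aeval x (g * h)) : ℝ) +
      (quadraticChar E (aeval x (f * g * h)) : ℝ)) ∧
      (1 : ℝ) - (quadraticChar E (aeval x f) : ℝ) - (quadraticChar E (aeval x g) : ℝ)
      + (quadraticChar E (aeval x (f * g)) : ℝ) + s * ((quadraticChar E (aeval x h) : ℝ) -
      (quadraticChar E (aeval x (f * h)) : ℝ) - (quadraticChar E (aeval x (g * h)) : ℝ) +
      (quadraticChar E (aeval x (f * g * h)) : ℝ)) ≤
      8 * (if quadraticChar E (aeval x f) = -1 ∧ quadraticChar E (aeval x g) = -1 ∧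
      quadraticChar E (aeval x h) = s then (1 : ℝ) else 0) + 4 * (if aeval x f = 0 then 1 else 0)
      + 4 * (if aeval x g = 0 then 1 else 0) + 4 * (if aeval x h = 0 then 1 else 0) := by
    intro x
    simp only [map_mul]
    rcases hs with rfl | rfl
    · by_cases h1 : aeval x f = 0 <;> by_cases h2 : aeval x g = 0 <;> by_cases h3 : aeval x h = 0
      · simp [h1, h2, h3]
        norm_num
      · rcases quadraticChar_dichotomy h3 with t | t <;> simp [h1, h2, t, h3] <;> norm_num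
      · rcases quadraticChar_dichotomy h2 with t | t <;> simp [h1, h3, t, h2] <;> norm_num
      · rcases quadraticChar_dichotomy h3 with t | t <;>
        rcases quadraticChar_dichotomy h2 with t' | t' <;> simp [h1, h2, h3, t, t'] <;> norm_num
      · rcases quadraticChar_dichotomy h1 with t | t <;> simp [h2, h3, t, h1] <;> norm_num
      · rcases quadraticChar_dichotomy h3 with t | t <;>
        rcases quadraticChar_dichotomy h1 with t' | t' <;> simp [h1, h2, h3, t, t'] <;> norm_num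
      · rcases quadraticChar_dichotomy h2 with t | t <;>
        rcases quadraticChar_dichotomy h1 with t' | t' <;> simp [h1, h2, h3, t, t'] <;> norm_num
      · rcases quadraticChar_dichotomy h3 with t | t <;>
        rcases quadraticChar_dichotomy h2 with t' | t' <;>
        rcases quadraticChar_dichotomy h1 with t'' | t'' <;>
        simp [h1, h2, h3, t, t', t''] <;> norm_num
    · by_cases h1 : aeval x f = 0 <;> by_cases h2 : aeval x g = 0 <;> by_cases h3 : aeval x h = 0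
      · simp [h1, h2, h3]
        norm_num
      · rcases quadraticChar_dichotomy h3 with t | t <;> simp [h1, h2, t, h3] <;> norm_num
      · rcases quadraticChar_dichotomy h2 with t | t <;> simp [h1, h3, t, h2] <;> norm_num
      · rcases quadraticChar_dichotomy h3 with t | t <;>
        rcases quadraticChar_dichotomy h2 with t' | t' <;> simp [h1, h2, h3, t, t'] <;> norm_num
      · rcases quadraticChar_dichotomy h1 with t | t <;> simp [h2, h3, t, h1] <;> norm_num
      · rcases quadraticChar_dichotomy h3 with t | t <;>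
        rcases quadraticChar_dichotomy h1 with t' | t' <;> simp [h1, h2, h3, t, t'] <;> norm_num
      · rcases quadraticChar_dichotomy h2 with t | t <;>
        rcases quadraticChar_dichotomy h1 with t' | t' <;> simp [h1, h2, h3, t, t'] <;> norm_num
      · rcases quadraticChar_dichotomy h3 with t | t <;>
        rcases quadraticChar_dichotomy h2 with t' | t' <;>
        rcases quadraticChar_dichotomy h1 with t'' | t'' <;>
        simp [h1, h2, h3, t, t', t''] <;> norm_num
  have hs1 := Finset.sum_le_sum (s := (univ : Finset E)) fun x _ => (hpt x).1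
  have hs2 := Finset.sum_le_sum (s := (univ : Finset E)) fun x _ => (hpt x).2
  simp only [sum_add_distrib, sum_sub_distrib, ← mul_sum, sum_boole, sum_const, card_univ,
    nsmul_eq_mul, mul_one] at hs1 hs2
  rw [← hS] at hs1 hs2
  have hz1 : ((univ.filter fun x : E => aeval x f = 0).card : ℝ) ≤ f.natDegree := by
    exact_mod_cast z1
  have hz2 : ((univ.filter fun x : E => aeval x g = 0).card : ℝ) ≤ g.natDegree := by
    exact_mod_cast z2
  have hz3 : ((univ.filter fun x : E => aeval x h = 0).card : ℝ) ≤ h.natDegree := by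
    exact_mod_cast z3
  have hsq : 1 ≤ Real.sqrt (Fintype.card E) := by
    rw [show (1 : ℝ) = Real.sqrt 1 by simp]
    apply Real.sqrt_le_sqrt
    have : 1 ≤ Fintype.card E := Fintype.card_pos
    exact_mod_cast this
  have c1 := abs_le.1 b1
  have c2 := abs_le.1 b2
  have c3 := abs_le.1 b3
  have c4 := abs_le.1 b4
  have c5 := abs_le.1 b5
  have c6 := abs_le.1 b6
  have c7 := abs_le.1 b7
  push_cast at c3 c5 c6 c7 hs1 hs2 ⊢
  have d1 : (f.natDegree : ℝ) ≤ f.natDegree * Real.sqrt (Fintype.card E) :=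
    le_mul_of_one_le_right (by positivity) hsq
  have d2 : (g.natDegree : ℝ) ≤ g.natDegree * Real.sqrt (Fintype.card E) :=
    le_mul_of_one_le_right (by positivity) hsq
  have d3 : (h.natDegree : ℝ) ≤ h.natDegree * Real.sqrt (Fintype.card E) :=
    le_mul_of_one_le_right (by positivity) hsq
  rcases hs with rfl | rfl
  · constructor
    · push_cast at hs1
      linarith [c1.1, c1.2, c2.1, c2.2, c3.1, c3.2, c4.1, c4.2, c5.1, c5.2, c6.1, c6.2, c7.1, c7.2]
    · push_cast at hs2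
      linarith [c1.1, c1.2, c2.1, c2.2, c3.1, c3.2, c4.1, c4.2, c5.1, c5.2, c6.1, c6.2, c7.1, c7.2]
  · constructor
    · push_cast at hs1
      linarith [c1.1, c1.2, c2.1, c2.2, c3.1, c3.2, c4.1, c4.2, c5.1, c5.2, c6.1, c6.2, c7.1, c7.2]
    · push_cast at hs2
      linarith [c1.1, c1.2, c2.1, c2.2, c3.1, c3.2, c4.1, c4.2, c5.1, c5.2, c6.1, c6.2, c7.1, c7.2]

end ext

section count

variable {k : Type} [Field k] [Fintype k]

theorem noPowerRoot_mul {k : Type} [Field k] {ε : k} (hε : ε ^ 2 = 1) {f g : k[X]} (hf : f ≠ 0)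
    (hg : g ≠ 0) {ℓ : ℕ} (h1 : NoPowerRoot (tr ε f) ℓ) (h2 : NoPowerRoot (tr ε g) ℓ) :
    NoPowerRoot (tr ε (f * g)) ℓ := by
  intro π hπ hdv
  haveI : Fact (Irreducible π) := ⟨hπ⟩
  have h3 : aeval (AdjoinRoot.root π) (tr ε (f * g)) = 0 := by
    rw [AdjoinRoot.aeval_eq, AdjoinRoot.mk_eq_zero]
    exact hdv
  have h0 := root_ne_zero (mul_ne_zero hf hg) hε h3
  rw [tr_eval ε _ h0, map_mul] at h3
  rcases mul_eq_zero.1 ((mul_eq_zero.1 h3).resolve_left (pow_ne_zero _ h0)) with h4 | h4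
  · apply h1 π hπ
    rw [← AdjoinRoot.mk_eq_zero, ← AdjoinRoot.aeval_eq, tr_eval ε _ h0, h4, mul_zero]
  · apply h2 π hπ
    rw [← AdjoinRoot.mk_eq_zero, ← AdjoinRoot.aeval_eq, tr_eval ε _ h0, h4, mul_zero]

/-- The condition from the irreducibility of the composition. -/
theorem noPowerRoot_of_irr {ε : k} (hε : ε ^ 2 = 1) {ℓ : ℕ} (hℓ : Odd ℓ) (hℓ1 : ℓ ≠ 1) {f : k[X]}
    (hf : f ≠ 0) (h : ∀ π : k[X], Irreducible π → π ∣ f → Irreducible (π.comp (dickson 1 ε ℓ))) :
    NoPowerRoot (tr ε f) ℓ := by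
  intro ρ hρ hdv
  haveI : Fact (Irreducible ρ) := ⟨hρ⟩
  haveI : Module.Finite k (AdjoinRoot ρ) := (AdjoinRoot.powerBasis hρ.ne_zero).finite
  set β : AdjoinRoot ρ := AdjoinRoot.root ρ with hβ
  have h3 : aeval β (tr ε f) = 0 := by
    rw [hβ, AdjoinRoot.aeval_eq, AdjoinRoot.mk_eq_zero]
    exact hdv
  have h0 := root_ne_zero hf hε h3
  rw [tr_eval ε _ h0] at h3
  have h4 := (mul_eq_zero.1 h3).resolve_left (pow_ne_zero _ h0)
  set α : AdjoinRoot ρ := β + algebraMap k _ ε / β with hα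
  have hint : IsIntegral k α := Algebra.IsIntegral.isIntegral α
  set π := minpoly k α with hπ
  have hπi : Irreducible π := minpoly.irreducible hint
  have hπf : π ∣ f := minpoly.dvd k α h4
  have hdd := natDegree_aux ε ℓ hℓ.pos
  have h5 : ρ ∣ tr ε π := by
    rw [← AdjoinRoot.mk_eq_zero, ← AdjoinRoot.aeval_eq, tr_eval ε _ h0, ← hα, hπ, minpoly.aeval,
      mul_zero]
  refine noPowerRoot_tr hε hℓ hπi ?_ ρ hρ h5
  intro v hv
  haveI : Fact (Irreducible π) := ⟨hπi⟩
  haveI : Module.Finite k (AdjoinRoot π) := (AdjoinRoot.powerBasis hπi.ne_zero).finite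
  have h6 : aeval v (π.comp (dickson 1 ε ℓ)) = 0 := by
    rw [aeval_comp, hv, AdjoinRoot.aeval_eq, AdjoinRoot.mk_self]
  have hvi : IsIntegral k v := Algebra.IsIntegral.isIntegral v
  have h7 : Associated (minpoly k v) (π.comp (dickson 1 ε ℓ)) :=
    (minpoly.irreducible hvi).associated_of_dvd (h π hπi hπf) (minpoly.dvd k v h6)
  have h8 : (minpoly k v).natDegree = π.natDegree * ℓ := by
    have := natDegree_eq_of_degree_eq (degree_eq_degree_of_associated h7)
    rw [this, natDegree_comp, hdd.2]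
  have h9 : (minpoly k v).natDegree ≤ Module.finrank k (AdjoinRoot π) := minpoly.natDegree_le v
  rw [(AdjoinRoot.powerBasis hπi.ne_zero).finrank, AdjoinRoot.powerBasis_dim, h8] at h9
  have h10 : 0 < π.natDegree := hπi.natDegree_pos
  have h11 : 3 ≤ ℓ := by
    obtain ⟨r, hr⟩ := hℓ
    omega
  nlinarith

theorem exists_manyT (hk : ringChar k ≠ 2) {ℓ : ℕ} (hℓ : ℓ.Prime) (hℓ2 : ℓ ≠ 2) {ε : k}
    (hε : ε ^ 2 = 1) {f g : k[X]}
    (hf : ∀ (c : k) (r : k[X]), f ≠ C c * r ^ 2) (hg : ∀ (c : k) (r : k[X]), g ≠ C c * r ^ 2)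
    (hfg : ∀ (c : k) (r : k[X]), f * g ≠ C c * r ^ 2)
    (hfh : ∀ (c : k) (r : k[X]), f * (X ^ 2 - C (4 * ε)) ≠ C c * r ^ 2)
    (hgh : ∀ (c : k) (r : k[X]), g * (X ^ 2 - C (4 * ε)) ≠ C c * r ^ 2)
    (hfgh : ∀ (c : k) (r : k[X]), f * g * (X ^ 2 - C (4 * ε)) ≠ C c * r ^ 2) (n : ℕ) (hn : n ≠ 0)
    (hℓk : ℓ ∣ Fintype.card k ^ (2 * n) - 1) :
    ∃ T : Finset k[X], (∀ D ∈ T, D.Monic ∧ Irreducible D ∧ D.natDegree = n ∧
      (∀ r : k[X], ¬ D ∣ f - r ^ 2 ∧ ¬ D ∣ g - r ^ 2) ∧ NoPowerRoot (tr ε D) ℓ) ∧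
      (1 - 1 / (ℓ : ℝ)) * (Fintype.card k : ℝ) ^ n ≤ 8 * (n * T.card) +
        (44 * (f.natDegree + g.natDegree + 2 : ℕ) + 8 * Fintype.card k) *
          (Real.sqrt (Fintype.card k)) ^ n := by
  classical
  obtain ⟨p, hp⟩ := CharP.exists k
  haveI : Fact (Nat.Prime p) := ⟨CharP.char_is_prime k p⟩
  haveI : NeZero n := ⟨hn⟩
  let E := FiniteField.Extension k p n
  letI : Fintype E := Fintype.ofFinite E
  haveI : FiniteDimensional k E := Module.Finite.of_finite
  have hfr : Module.finrank k E = n := FiniteField.finrank_extension k p n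
  have hcard : Fintype.card E = Fintype.card k ^ n := by
    rw [Module.card_eq_pow_finrank (K := k) (V := E), hfr]
  have hE : ringChar E ≠ 2 := by
    rwa [← Algebra.ringChar_eq k E]
  have hdd := natDegree_aux ε ℓ hℓ.one_lt.le
  have hodd' : Odd ℓ := hℓ.odd_of_ne_two hℓ2
  have hodd : Odd (dickson 1 ε ℓ).natDegree := by
    rw [hdd.2]
    exact hodd'
  have hε0 : ε ≠ 0 := by
    rintro rfl
    norm_num at hε
  have h20 : (2 : k) ≠ 0 := Ring.two_ne_zero hk
  set h : k[X] := X ^ 2 - C (4 * ε) with hh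
  have hhd : h.natDegree = 2 := natDegree_X_pow_sub_C
  have hhs : ∀ (c : k) (r : k[X]), h ≠ C c * r ^ 2 := by
    intro c r e
    have hsep : h.Separable := by
      rw [hh]
      refine separable_X_pow_sub_C (4 * ε) (by exact_mod_cast h20) ?_
      have : (4 : k) = 2 * 2 := by norm_num
      rw [this]
      exact mul_ne_zero (mul_ne_zero h20 h20) hε0
    have h1 : IsUnit r := by
      apply hsep.squarefree r
      rw [e]
      exact ⟨C c, by ring⟩
    have h2 := natDegree_eq_zero_of_isUnit h1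
    have h3 : h.natDegree ≤ 0 := by
      rw [e]
      refine (natDegree_C_mul_le _ _).trans ?_
      rw [natDegree_pow, h2]
    omega
  -- the sign
  have hcast : (ℓ : ℤ) ∣ ((Fintype.card E : ℤ) - 1) * ((Fintype.card E : ℤ) - -1) := by
    have h1 : ((Fintype.card k ^ (2 * n) - 1 : ℕ) : ℤ) =
        ((Fintype.card E : ℤ) - 1) * ((Fintype.card E : ℤ) - -1) := by
      have h2 : 1 ≤ Fintype.card k ^ (2 * n) := Nat.one_le_pow _ _ Fintype.card_pos
      rw [hcard]
      push_cast [h2]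
      ring
    rw [← h1]
    exact_mod_cast hℓk
  have hsgn : ∃ s : ℤ, (s = 1 ∨ s = -1) ∧ (ℓ : ℤ) ∣ (Fintype.card E : ℤ) - s := by
    rcases (Nat.prime_iff_prime_int.1 hℓ).dvd_or_dvd hcast with h1 | h1
    · exact ⟨1, Or.inl rfl, h1⟩
    · exact ⟨-1, Or.inr rfl, h1⟩
  obtain ⟨s, hs, hd⟩ := hsgn
  set e : E := algebraMap k E ε with he
  have he2 : e ^ 2 = 1 := by rw [he, ← map_pow, hε, map_one]
  set A : Finset E := Finset.univ.filter fun x : E => quadraticChar E (aeval x f) = -1 ∧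
      quadraticChar E (aeval x g) = -1 ∧ quadraticChar E (aeval x h) = s with hA
  set B : Finset E := Finset.univ.filter fun x : E =>
      quadraticChar E (aeval x (f.comp (dickson 1 ε ℓ))) = -1 ∧
      quadraticChar E (aeval x (g.comp (dickson 1 ε ℓ))) = -1 ∧
      quadraticChar E (aeval x (h.comp (dickson 1 ε ℓ))) = s with hB
  have h1 := (card_three (E := E) hk hs hf hg hfg hhs hfh hgh hfgh).2
  have h2 := (card_three (E := E) hk hs (comp_ne_sq hodd hf) (comp_ne_sq hodd hg) (by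
    intro c r
    rw [← mul_comp]
    exact comp_ne_sq hodd hfg c r) (comp_ne_sq hodd hhs) (by
    intro c r
    rw [← mul_comp]
    exact comp_ne_sq hodd hfh c r) (by
    intro c r
    rw [← mul_comp]
    exact comp_ne_sq hodd hgh c r) (by
    intro c r
    rw [← mul_comp, ← mul_comp]
    exact comp_ne_sq hodd hfgh c r)).1
  rw [← hA] at h1
  rw [← hB] at h2
  have h3 := card_values hE he2 hℓ hℓ2 hs hd A B (by
    intro x hx
    rw [hA, mem_filter] at hx
    have h4 := hx.2.2.2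
    rw [hh, map_sub, map_pow, aeval_X, aeval_C, map_mul, map_ofNat] at h4
    exact h4) (by
    intro y hy
    rw [hA, mem_filter] at hy
    rw [hB, mem_filter]
    refine ⟨mem_univ _, ?_⟩
    rw [aeval_comp, aeval_comp, aeval_comp, aeval_dickson, ← he]
    exact hy.2)
  set P := A.filter fun x => ∃ y : E, (dickson 1 e ℓ).eval y = x with hP
  obtain ⟨T, hT, hc⟩ := to_polys (F := k) (A \ P) hn hfr
  have hsq : Real.sqrt (Fintype.card E) = (Real.sqrt (Fintype.card k)) ^ n := by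
    rw [hcard]
    push_cast
    rw [Real.sqrt_eq_iff_mul_self_eq (by positivity) (by positivity), ← mul_pow,
      Real.mul_self_sqrt (by positivity)]
  have hq1 : (1 : ℝ) ≤ Fintype.card k := by exact_mod_cast Fintype.card_pos
  have hsq1 : 1 ≤ Real.sqrt (Fintype.card k) := by
    rw [show (1 : ℝ) = Real.sqrt 1 by simp]
    exact Real.sqrt_le_sqrt hq1
  have h4 : ((Fintype.card k ^ (n / 2 + 1) : ℕ) : ℝ) ≤
      Fintype.card k * (Real.sqrt (Fintype.card k)) ^ n := by
    push_cast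
    rw [pow_succ, mul_comm]
    refine mul_le_mul_of_nonneg_left ?_ (by positivity)
    have h5 : (Fintype.card k : ℝ) ^ (n / 2) = (Real.sqrt (Fintype.card k)) ^ (2 * (n / 2)) := by
      rw [pow_mul, Real.sq_sqrt (by positivity)]
    rw [h5]
    exact pow_le_pow_right₀ hsq1 (Nat.mul_div_le n 2)
  refine ⟨T, ?_, ?_⟩
  · intro D hD
    obtain ⟨x, hx, rfl, hdeg⟩ := hT D hD
    have hint : IsIntegral k x := Algebra.IsIntegral.isIntegral x
    have hxA : x ∈ A := (mem_sdiff.1 hx).1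
    have e3 : x ∉ P := (mem_sdiff.1 hx).2
    obtain ⟨-, e1, e2, -⟩ := mem_filter.1 hxA
    have key : ∀ (w r : k[X]), quadraticChar E (aeval x w) = -1 → ¬ minpoly k x ∣ w - r ^ 2 := by
      intro w r hw hdv
      have h5 : aeval x (w - r ^ 2) = 0 := (minpoly.dvd_iff).1 hdv
      rw [map_sub, map_pow, sub_eq_zero] at h5
      rw [h5] at hw
      by_cases h0 : aeval x r = 0
      · rw [h0, zero_pow two_ne_zero, MulChar.map_zero] at hw
        norm_num at hw
      · rw [quadraticChar_sq_one' h0] at hw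
        norm_num at hw
    refine ⟨minpoly.monic hint, minpoly.irreducible hint, hdeg,
      fun r => ⟨key f r e1, key g r e2⟩, ?_⟩
    refine noPowerRoot_tr hε hodd' (minpoly.irreducible hint) ?_
    intro v hv
    apply e3
    refine mem_filter.2
      ⟨hxA, AdjoinRoot.liftAlgHom (minpoly k x) (Algebra.ofId k E) x (minpoly.aeval k x) v, ?_⟩
    rw [he, ← aeval_dickson, Polynomial.aeval_algHom_apply, hv]
    exact AdjoinRoot.liftAlgHom_root ..
  · have hℓ0 : (0 : ℝ) < ℓ := by exact_mod_cast hℓ.pos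
    have hℓ1 : (1 : ℝ) ≤ ℓ := by exact_mod_cast hℓ.one_lt.le
    have h5 : (A \ P).card + P.card = A.card := by
      have := card_sdiff_add_card_eq_card
        (filter_subset (fun x => ∃ y : E, (dickson 1 e ℓ).eval y = x) A)
      exact this
    have h6 : ((A \ P).card : ℝ) + P.card = A.card := by exact_mod_cast h5
    have h7 : (ℓ : ℝ) * P.card ≤ B.card := by exact_mod_cast h3
    have h8 : (P.card : ℝ) ≤ B.card / ℓ := by
      rw [le_div_iff₀ hℓ0]
      linarith
    have h9 : ((A \ P).card : ℝ) ≤ n * T.card + Fintype.card k * (Real.sqrt (Fintype.card k)) ^ n := by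
      have h10 : ((A \ P).card : ℝ) ≤ n * T.card + ((Fintype.card k ^ (n / 2 + 1) : ℕ) : ℝ) := by
        exact_mod_cast hc
      linarith
    rw [natDegree_comp, natDegree_comp, natDegree_comp, hdd.2, hhd] at h2
    rw [hhd] at h1
    rw [hsq, hcard] at h1 h2
    set Q : ℝ := (Real.sqrt (Fintype.card k)) ^ n with hQ
    have hQ1 : 1 ≤ Q := one_le_pow₀ hsq1
    -- the bound for `B`
    have h11 : 8 * ((B.card : ℝ) / ℓ) ≤ (Fintype.card k : ℝ) ^ n / ℓ +
        20 * (f.natDegree + g.natDegree + 2 : ℕ) * Q := by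
      have e : (Fintype.card k : ℝ) ^ n / ℓ + 20 * (f.natDegree + g.natDegree + 2 : ℕ) * Q =
          ((Fintype.card k : ℝ) ^ n +
            20 * ((f.natDegree * ℓ + g.natDegree * ℓ + 2 * ℓ : ℕ) : ℝ) * Q) / ℓ := by
        push_cast
        field_simp
      rw [e, ← mul_div_assoc]
      apply div_le_div_of_nonneg_right _ hℓ0.le
      exact_mod_cast h2
    push_cast at h1 h11 ⊢
    have e2 : (1 - 1 / (ℓ : ℝ)) * (Fintype.card k : ℝ) ^ n = (Fintype.card k : ℝ) ^ n -
        (Fintype.card k : ℝ) ^ n / ℓ := by ring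
    rw [e2]
    nlinarith

/-- the asymptotic form -/
theorem exists_eighthT (hk : ringChar k ≠ 2) {ℓ : ℕ} (hℓ : ℓ.Prime) (hℓ2 : ℓ ≠ 2) {ε : k}
    (hε : ε ^ 2 = 1) {f g : k[X]}
    (hf : ∀ (c : k) (r : k[X]), f ≠ C c * r ^ 2) (hg : ∀ (c : k) (r : k[X]), g ≠ C c * r ^ 2)
    (hfg : ∀ (c : k) (r : k[X]), f * g ≠ C c * r ^ 2)
    (hfh : ∀ (c : k) (r : k[X]), f * (X ^ 2 - C (4 * ε)) ≠ C c * r ^ 2)
    (hgh : ∀ (c : k) (r : k[X]), g * (X ^ 2 - C (4 * ε)) ≠ C c * r ^ 2)
    (hfgh : ∀ (c : k) (r : k[X]), f * g * (X ^ 2 - C (4 * ε)) ≠ C c * r ^ 2)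
    {η : ℝ} (hη : 0 < η) :
    ∃ n0 : ℕ, ∀ n : ℕ, n0 ≤ n → ℓ ∣ Fintype.card k ^ (2 * n) - 1 →
      ∃ T : Finset k[X], (∀ D ∈ T, D.Monic ∧ Irreducible D ∧
      D.natDegree = n ∧ (∀ r : k[X], ¬ D ∣ f - r ^ 2 ∧ ¬ D ∣ g - r ^ 2) ∧ NoPowerRoot (tr ε D) ℓ) ∧
      (1 / 8 * (1 - 1 / (ℓ : ℝ)) - η) * (Fintype.card k : ℝ) ^ n ≤ n * T.card := by
  set A : ℝ := (44 * (f.natDegree + g.natDegree + 2 : ℕ) + 8 * Fintype.card k) / (8 * η) with hA
  obtain ⟨N, hN⟩ := exists_nat_ge A
  refine ⟨max 4 N, fun n hn hℓk => ?_⟩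
  have hn4 : 4 ≤ n := (le_max_left _ _).trans hn
  have hnN : N ≤ n := (le_max_right _ _).trans hn
  obtain ⟨T, hT, hc⟩ := exists_manyT hk hℓ hℓ2 hε hf hg hfg hfh hgh hfgh n (by omega) hℓk
  refine ⟨T, hT, ?_⟩
  set Q : ℝ := (Real.sqrt (Fintype.card k)) ^ n with hQ
  have hq2 : (2 : ℝ) ≤ Fintype.card k := by exact_mod_cast Fintype.one_lt_card
  have hQQ : (Fintype.card k : ℝ) ^ n = Q * Q := by
    rw [hQ, ← mul_pow, Real.mul_self_sqrt (by positivity)]
  have hQ0 : 0 ≤ Q := by positivity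
  have hQn : (n : ℝ) ≤ Q := by
    have h1 : (n : ℝ) * n ≤ Q * Q := by
      rw [← hQQ]
      have h2 : n ^ 2 ≤ 2 ^ n := sq_le_pow n hn4
      have h3 : (n : ℝ) ^ 2 ≤ 2 ^ n := by exact_mod_cast h2
      calc (n : ℝ) * n = n ^ 2 := by ring
        _ ≤ 2 ^ n := h3
        _ ≤ (Fintype.card k : ℝ) ^ n := pow_le_pow_left₀ (by norm_num) hq2 n
    nlinarith
  have hAQ : (44 * (f.natDegree + g.natDegree + 2 : ℕ) + 8 * (Fintype.card k : ℝ)) ≤
      8 * η * Q := by
    have h1 : A ≤ Q := hN.trans ((by exact_mod_cast hnN : (N : ℝ) ≤ n).trans hQn)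
    rw [hA, div_le_iff₀ (by positivity)] at h1
    linarith
  have h5 : (44 * (f.natDegree + g.natDegree + 2 : ℕ) + 8 * (Fintype.card k : ℝ)) * Q ≤
      8 * η * Q * Q := mul_le_mul_of_nonneg_right hAQ hQ0
  rw [hQQ] at hc ⊢
  nlinarith

end count

section final

variable {k k' K F : Type} [Field k] [Field k'] [Algebra k k'] [Field K] [Algebra k[X] K]
    [Field F] [Algebra k'[X] F] [IsFractionRing k'[X] F] [Algebra K F]

/-- **Twists by primes in towers of Dickson covers.** -/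
theorem dickson_prime_twists [Fintype k] (hT : IsTower k k' K F) (hk : ringChar k ≠ 2) {a b : k[X]}
    (hNb : NotNorm b) (hNd : NotNorm (a ^ 2 - 4 * b)) (hO : OnlyTrivial a b)
    (hO' : OnlyTrivial (-2 * a) (a ^ 2 - 4 * b)) {ε : k} (hε : ε ^ 2 = 1)
    (h1 : ∀ (c : k) (r : k[X]), b * (a ^ 2 - 4 * b) ≠ C c * r ^ 2)
    (h2 : ∀ (c : k) (r : k[X]), b * (X ^ 2 - C (4 * ε)) ≠ C c * r ^ 2)
    (h3 : ∀ (c : k) (r : k[X]), (a ^ 2 - 4 * b) * (X ^ 2 - C (4 * ε)) ≠ C c * r ^ 2)
    (h4 : ∀ (c : k) (r : k[X]), b * (a ^ 2 - 4 * b) * (X ^ 2 - C (4 * ε)) ≠ C c * r ^ 2)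
    {ℓ : ℕ} (hℓ : ℓ.Prime) (hℓ2 : ℓ ≠ 2)
    (hi : ∀ π : k[X], Irreducible π → π ∣ b * (a ^ 2 - 4 * b) →
      Irreducible (π.comp (dickson 1 ε ℓ))) {η : ℝ} (hη : 0 < η) :
    ∃ n0 : ℕ, ∀ n : ℕ, n0 ≤ n → ℓ ∣ Fintype.card k ^ (2 * n) - 1 → ∃ T : Finset k[X],
      (∀ D ∈ T, D.Monic ∧ Irreducible D ∧ D.natDegree = n ∧
        ∀ (c : k) (j : ℕ), c ≠ 0 →
          TateAtTwo (F := F) k'
            (crvT (algebraMap k[X] K ((C c * (a * D)).comp (dickson 1 ε (ℓ ^ j))))
              (algebraMap k[X] K ((C (c ^ 2) * (b * D ^ 2)).comp (dickson 1 ε (ℓ ^ j)))))) ∧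
      (1 / 8 * (1 - 1 / (ℓ : ℝ)) - η) * (Fintype.card k : ℝ) ^ n ≤ n * T.card := by
  have h20 : (2 : k) ≠ 0 := Ring.two_ne_zero hk
  have hb0 : b ≠ 0 := by
    rintro rfl
    exact (hNb 0 1 0 0 (by simp)).1 rfl
  have hd0 : a ^ 2 - 4 * b ≠ 0 := by
    intro h0
    exact (hNd 0 1 0 0 (by rw [h0]; simp)).1 rfl
  have hp : NoPowerRoot (tr ε (b * (a ^ 2 - 4 * b))) ℓ :=
    noPowerRoot_of_irr hε (hℓ.odd_of_ne_two hℓ2) hℓ.one_lt.ne' (mul_ne_zero hb0 hd0) hi
  obtain ⟨n0, hn⟩ := exists_eighthT hk hℓ hℓ2 hε (ne_sq_of_notNorm hNb)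
    (ne_sq_of_notNorm hNd) h1 h2 h3 h4 hη
  refine ⟨n0, fun n hnn hℓk => ?_⟩
  obtain ⟨T, hT', hc⟩ := hn n hnn hℓk
  refine ⟨T, fun D hD => ?_, hc⟩
  obtain ⟨g1, g2, g3, g4, g5⟩ := hT' D hD
  refine ⟨g1, g2, g3, ?_⟩
  intro c j hc
  refine dickson_covers hT h20 hNb hNd hO hO' ⟨g2.ne_zero, ?_⟩ hε hc
    ((hℓ.odd_of_ne_two hℓ2).pow) ?_
  · intro π hπ hdv r
    have has : Associated π D := (hπ.associated_of_dvd g2 hdv)
    refine ⟨fun h8 => (g4 r).1 (has.symm.dvd.trans h8), fun h8 => (g4 r).2 (has.symm.dvd.trans h8)⟩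
  · intro ℓ' hℓ' hdv
    have e : ℓ' = ℓ := (Nat.prime_dvd_prime_iff_eq hℓ' hℓ).1 (hℓ'.dvd_of_dvd_pow hdv)
    subst e
    exact noPowerRoot_mul hε (mul_ne_zero hb0 hd0) g2.ne_zero hp g5

end final

end Pool.Agent.K6.H71.Dick
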