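import Mathlib

/-!
# Specialisation of an irreducible polynomial in a one-parameter family, with an explicit thin set
-/

set_option autoImplicit false

namespace Pool.Agent.K6.H71.Thin

open Polynomial

theorem dvd_prod_linear {k ι : Type*} [Field k] [DecidableEq ι] (β : ι → k) (R : Finset ι) :
    ∀ u : k[X], u.Monic → u ∣ ∏ i ∈ R, (X - C (β i)) →
      ∃ S ⊆ R, u = ∏ i ∈ S, (X - C (β i)) := by
  induction R using Finset.induction_on with
  | empty =>
    intro u hu hd
    refine ⟨∅, subset_rfl, ?_⟩
    rw [Finset.prod_empty] at hd ⊢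
    exact hu.eq_one_of_isUnit (isUnit_of_dvd_one hd)
  | insert j R hj ih =>
    intro u hu hd
    rw [Finset.prod_insert hj] at hd
    by_cases h : (X - C (β j)) ∣ u
    · obtain ⟨w, rfl⟩ := h
      have hw : w.Monic := (monic_X_sub_C (β j)).of_mul_monic_left hu
      have hd' : w ∣ ∏ i ∈ R, (X - C (β i)) :=
        (mul_dvd_mul_iff_left (X_sub_C_ne_zero (β j))).1 hd
      obtain ⟨S, hS, hwS⟩ := ih w hw hd'
      refine ⟨insert j S, Finset.insert_subset_insert j hS, ?_⟩
      rw [Finset.prod_insert (fun h => hj (hS h)), ← hwS]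
    · have hcop : IsCoprime u (X - C (β j)) :=
        ((irreducible_X_sub_C (β j)).coprime_iff_not_dvd.2 h).symm
      obtain ⟨S, hS, huS⟩ := ih u hu (hcop.dvd_of_dvd_mul_left hd)
      exact ⟨S, hS.trans (Finset.subset_insert j R), huS⟩

/-- The equations of a thin set: `P` is monic and irreducible of degree at least two in `y`, and
separable (this is automatic in characteristic zero). -/
def IsThinEq {k : Type*} [Field k] (P : k[X][X]) : Prop :=
  P.Monic ∧ Irreducible P ∧ 2 ≤ P.natDegree ∧ derivative P ≠ 0

/-- The equation `P(c, y) = 0` has no solution `y` in `k`. -/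
def NoRootAt {k : Type*} [Field k] (P : k[X][X]) (c : k) : Prop :=
  ∀ y : k, (P.map (evalRingHom c)).eval y ≠ 0

theorem hilb_thin {k : Type*} [Field k] (f : k[X][X]) (hf : f.Monic) (hirr : Irreducible f)
    (hder : derivative f ≠ 0) :
    ∃ E : Finset k[X][X], (∀ P ∈ E, IsThinEq P) ∧
      ∀ c : k, (∀ P ∈ E, NoRootAt P c) → Irreducible (f.map (evalRingHom c)) := by
  classical
  let Kf := FractionRing k[X]
  let fK : Kf[X] := f.map (algebraMap k[X] Kf)
  have hirrK : Irreducible fK := (hf.irreducible_iff_irreducible_map_fraction_map).1 hirr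
  have hfK : fK.Monic := hf.map _
  let N := fK.SplittingField
  have hsep : fK.Separable := by
    rw [separable_iff_derivative_ne_zero hirrK]
    intro h0
    apply hder
    apply Polynomial.map_injective (algebraMap k[X] Kf) (IsFractionRing.injective k[X] Kf)
    rw [Polynomial.map_zero, ← derivative_map]
    exact h0
  have hgal : IsGalois Kf N := IsGalois.of_separable_splitting_field (p := fK) hsep
  have hAN : Function.Injective (algebraMap k[X] N) := by
    rw [IsScalarTower.algebraMap_eq k[X] Kf N]
    exact (algebraMap Kf N).injective.comp (IsFractionRing.injective k[X] Kf)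
  have hfN : f.map (algebraMap k[X] N) = fK.map (algebraMap Kf N) := by
    rw [Polynomial.map_map, ← IsScalarTower.algebraMap_eq]
  set R : Finset N := (fK.map (algebraMap Kf N)).roots.toFinset with hR
  have hnodup : (fK.map (algebraMap Kf N)).roots.Nodup := nodup_roots hsep.map
  have hsplit : (fK.map (algebraMap Kf N)).Splits := SplittingField.splits fK
  have hprod : f.map (algebraMap k[X] N) = ∏ α ∈ R, (X - C α) := by
    rw [hfN, hsplit.eq_prod_roots_of_monic (hfK.map _)]
    rw [Finset.prod_eq_multiset_prod, hR, Multiset.toFinset_val, Multiset.dedup_eq_self.2 hnodup]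
  have hRroot : ∀ α ∈ R, aeval α fK = 0 := by
    intro α hα
    rw [hR, Multiset.mem_toFinset, mem_roots (hfK.map _).ne_zero, IsRoot.def,
      eval_map_algebraMap] at hα
    exact hα
  have hint : ∀ α ∈ R, IsIntegral k[X] α := by
    intro α hα
    refine ⟨f, hf, ?_⟩
    rw [← eval_map, hfN, eval_map_algebraMap]
    exact hRroot α hα
  have hcardR : R.card = f.natDegree := by
    have h1 := congrArg natDegree hprod
    rw [hf.natDegree_map, natDegree_prod_of_monic _ _ (fun α _ => monic_X_sub_C α)] at h1
    simp only [natDegree_X_sub_C, Finset.sum_const, smul_eq_mul, mul_one] at h1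
    exact h1.symm
  let CC := integralClosure k[X] N
  have hex : ∀ α : N, ∃ x : CC, α ∈ R → (x : N) = α := by
    intro α
    by_cases h : α ∈ R
    · exact ⟨⟨α, hint α h⟩, fun _ => rfl⟩
    · exact ⟨0, fun h' => absurd h' h⟩
  choose γ hγ using hex
  -- the factors of `f` over `N`
  obtain ⟨g, hg⟩ : ∃ g : Finset N → N[X], ∀ S, g S = ∏ α ∈ S, (X - C α) := ⟨_, fun _ => rfl⟩
  obtain ⟨gC, hgC⟩ : ∃ gC : Finset N → CC[X], ∀ S, gC S = ∏ α ∈ S, (X - C (γ α)) :=
    ⟨_, fun _ => rfl⟩
  have hgCN : ∀ S ⊆ R, (gC S).map (algebraMap CC N) = g S := by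
    intro S hS
    rw [hgC, hg, Polynomial.map_prod]
    apply Finset.prod_congr rfl
    intro α hα
    rw [Polynomial.map_sub, map_X, map_C]
    congr 2
    exact hγ α (hS hα)
  have hcoeffint : ∀ S ⊆ R, ∀ i, IsIntegral k[X] ((g S).coeff i) := by
    intro S hS i
    rw [← hgCN S hS, coeff_map]
    exact ((gC S).coeff i).2
  have hnotlift : ∀ S ⊆ R, S ≠ ∅ → S ≠ R →
      ∃ i ∈ Finset.range (f.natDegree + 1), (g S).coeff i ∉ (algebraMap Kf N).range := by
    intro S hSR hS0 hS1
    by_contra hcon
    push Not at hcon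
    have hgm : (g S).Monic := by
      rw [hg]
      exact monic_prod_of_monic _ _ fun α _ => monic_X_sub_C α
    have hgdeg : (g S).natDegree = S.card := by
      rw [hg, natDegree_prod_of_monic _ _ (fun α _ => monic_X_sub_C α)]
      simp
    have hcard1 : S.card < R.card := Finset.card_lt_card ((Finset.ssubset_iff_subset_ne).2 ⟨hSR, hS1⟩)
    have hcard0 : 0 < S.card := Finset.card_pos.2 (Finset.nonempty_iff_ne_empty.2 hS0)
    have hall : ∀ i, (g S).coeff i ∈ (algebraMap Kf N).range := by
      intro i
      by_cases hi : i ∈ Finset.range (f.natDegree + 1)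
      · exact hcon i hi
      · rw [Finset.mem_range, not_lt] at hi
        rw [coeff_eq_zero_of_natDegree_lt (by omega)]
        exact zero_mem _
    have hlift : g S ∈ lifts (algebraMap Kf N) := by
      rw [lifts_iff_coeff_lifts]
      intro i
      obtain ⟨x, hx⟩ := hall i
      exact ⟨x, hx⟩
    obtain ⟨G, hG, hGdeg, hGm⟩ := lifts_and_natDegree_eq_and_monic hlift hgm
    have hdvd : G ∣ fK := by
      rw [← Polynomial.map_dvd_map' (algebraMap Kf N), hG, ← hfN, hprod, hg]
      exact Finset.prod_dvd_prod_of_subset _ _ _ hSR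
    rcases hirrK.dvd_iff.1 hdvd with h | h
    · have h1 := natDegree_eq_zero_of_isUnit h
      omega
    · have h1 := natDegree_eq_of_degree_eq (degree_eq_degree_of_associated h)
      have h2 : fK.natDegree = f.natDegree := hf.natDegree_map _
      omega
  -- the family
  obtain ⟨T, hT⟩ : ∃ T : Finset (Finset N × ℕ), T = ((R.powerset ×ˢ Finset.range
      (f.natDegree + 1)).filter (fun p => (g p.1).coeff p.2 ∉ (algebraMap Kf N).range)) :=
    ⟨_, rfl⟩
  refine ⟨T.image (fun p => minpoly k[X] ((g p.1).coeff p.2)), ?_, ?_⟩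
  · intro P hP
    rw [Finset.mem_image] at hP
    obtain ⟨p, hp, rfl⟩ := hP
    rw [hT, Finset.mem_filter, Finset.mem_product, Finset.mem_powerset] at hp
    obtain ⟨⟨hpR, -⟩, hp2⟩ := hp
    set y := (g p.1).coeff p.2 with hy
    have hyi : IsIntegral k[X] y := hcoeffint _ hpR _
    have hyK : IsIntegral Kf y := hyi.tower_top
    have h1 : minpoly Kf y = (minpoly k[X] y).map (algebraMap k[X] Kf) :=
      minpoly.isIntegrallyClosed_eq_field_fractions Kf N hyi
    have hmon := minpoly.monic hyi
    have hdeg : (minpoly Kf y).natDegree = (minpoly k[X] y).natDegree := by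
      rw [h1, hmon.natDegree_map]
    refine ⟨hmon, ?_, ?_, ?_⟩
    · rw [hmon.irreducible_iff_irreducible_map_fraction_map (K := Kf), ← h1]
      exact minpoly.irreducible hyK
    · rw [← hdeg]
      have h2 : 0 < (minpoly Kf y).natDegree := minpoly.natDegree_pos hyK
      have h3 : (minpoly Kf y).natDegree ≠ 1 := by
        intro h3
        exact hp2 (minpoly.natDegree_eq_one_iff.1 h3)
      omega
    · intro h0
      have h2 : (minpoly Kf y).Separable := Algebra.IsSeparable.isSeparable Kf y
      rw [separable_iff_derivative_ne_zero (minpoly.irreducible hyK)] at h2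
      apply h2
      rw [h1, derivative_map, h0, Polynomial.map_zero]
  intro c hc
  set φ : k[X] →+* k := evalRingHom c with hφ
  have hφs : Function.Surjective φ := fun q => ⟨C q, by rw [hφ, coe_evalRingHom, eval_C]⟩
  have hCinj : Function.Injective (algebraMap k[X] CC) := by
    intro a b hab
    apply hAN
    exact congrArg Subtype.val hab
  have hmax : (RingHom.ker φ).IsMaximal := RingHom.ker_isMaximal_of_surjective φ hφs
  have hCint : Algebra.IsIntegral k[X] CC := inferInstance
  obtain ⟨Q, hQmax, hQ⟩ := Ideal.exists_ideal_over_maximal_of_isIntegral (S := CC) (RingHom.ker φ)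
    (by rw [(RingHom.injective_iff_ker_eq_bot _).1 hCinj]; exact bot_le)
  let _ : Field (CC ⧸ Q) := Ideal.Quotient.field Q
  set ψ : CC →+* CC ⧸ Q := Ideal.Quotient.mk Q with hψ
  set j : k →+* CC ⧸ Q := ψ.comp ((algebraMap k[X] CC).comp (C : k →+* k[X])) with hj
  have hcomm : ψ.comp (algebraMap k[X] CC) = j.comp φ := by
    apply RingHom.ext
    intro x
    have h1 : x - C (φ x) ∈ RingHom.ker φ := by
      rw [RingHom.mem_ker, map_sub, hφ, coe_evalRingHom, eval_C, sub_self]
    rw [← hQ, Ideal.mem_comap] at h1
    have h2 := Ideal.Quotient.eq_zero_iff_mem.2 h1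
    rw [map_sub, map_sub, sub_eq_zero] at h2
    exact h2
  have hprodC : f.map (algebraMap k[X] CC) = ∏ α ∈ R, (X - C (γ α)) := by
    apply Polynomial.map_injective (algebraMap CC N) Subtype.val_injective
    rw [Polynomial.map_map, Polynomial.map_prod]
    have h1 : (algebraMap CC N).comp (algebraMap k[X] CC) = algebraMap k[X] N := rfl
    rw [h1, hprod]
    apply Finset.prod_congr rfl
    intro α hα
    rw [Polynomial.map_sub, map_X, map_C]
    congr 2
    exact (hγ α hα).symm
  have hprodQ : (f.map φ).map j = ∏ α ∈ R, (X - C (ψ (γ α))) := by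
    rw [Polynomial.map_map, ← hcomm, ← Polynomial.map_map, hprodC, Polynomial.map_prod]
    apply Finset.prod_congr rfl
    intro α _
    rw [Polynomial.map_sub, map_X, map_C]
  have hfφ : (f.map φ).Monic := hf.map φ
  have hdeg : (f.map φ).natDegree = f.natDegree := hf.natDegree_map φ
  rw [hfφ.irreducible_iff_natDegree']
  constructor
  · intro h1
    apply hirr.not_isUnit
    have h2 : f.natDegree = 0 := by rw [← hdeg, h1, natDegree_one]
    rw [hf.natDegree_eq_zero.1 h2]
    exact isUnit_one
  · intro u v hu hv huv hmem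
    rw [Finset.mem_Ioc, hdeg] at hmem
    obtain ⟨hv0, hv1⟩ := hmem
    have hvd : v.map j ∣ ∏ α ∈ R, (X - C (ψ (γ α))) := by
      rw [← hprodQ, ← huv, Polynomial.map_mul]
      exact dvd_mul_left _ _
    obtain ⟨S, hSR, hS⟩ := dvd_prod_linear (fun α => ψ (γ α)) R _ (hv.map j) hvd
    have hcardS : S.card = v.natDegree := by
      have h1 := congrArg natDegree hS
      rw [hv.natDegree_map, natDegree_prod_of_monic _ _ (fun α _ => monic_X_sub_C _)] at h1
      simp only [natDegree_X_sub_C, Finset.sum_const, smul_eq_mul, mul_one] at h1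
      exact h1.symm
    obtain ⟨i, hi, hiN⟩ := hnotlift S hSR (by rintro rfl; rw [Finset.card_empty] at hcardS; omega)
      (by rintro rfl; omega)
    have hmemT : (S, i) ∈ T := by
      rw [hT, Finset.mem_filter, Finset.mem_product, Finset.mem_powerset]
      exact ⟨⟨hSR, hi⟩, hiN⟩
    refine hc _ (Finset.mem_image_of_mem _ hmemT) (v.coeff i) ?_
    apply j.injective
    have hvi : j (v.coeff i) = ψ ((gC S).coeff i) := by
      rw [← coeff_map, hS, hgC, ← coeff_map, Polynomial.map_prod]
      congr 1
      apply Finset.prod_congr rfl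
      intro α _
      rw [Polynomial.map_sub, map_X, map_C]
    have hroot : ((minpoly k[X] ((g S).coeff i)).map (algebraMap k[X] CC)).eval ((gC S).coeff i)
        = 0 := by
      apply Subtype.val_injective
      have h1 : (algebraMap CC N) (((minpoly k[X] ((g S).coeff i)).map
          (algebraMap k[X] CC)).eval ((gC S).coeff i)) = 0 := by
        rw [← eval_map_apply, Polynomial.map_map]
        have h2 : (algebraMap CC N).comp (algebraMap k[X] CC) = algebraMap k[X] N := rfl
        have h3 : (algebraMap CC N) ((gC S).coeff i) = (g S).coeff i := by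
          rw [← coeff_map, hgCN S hSR]
        rw [h2, h3, eval_map_algebraMap]
        exact minpoly.aeval _ _
      exact h1
    rw [map_zero, ← eval_map_apply, Polynomial.map_map, ← hφ, ← hcomm, hvi, ← Polynomial.map_map,
      eval_map_apply, hroot, map_zero]

end Pool.Agent.K6.H71.Thin
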