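import Mathlib
import Pool.Agent.K6.H71.Thin

/-!
# Pencils `h(t) + s g(t)`: a prime remains a prime
-/

set_option autoImplicit false

namespace Pool.Agent.K6.H71.Thin

open Polynomial
open scoped Polynomial.Bivariate

variable {k : Type*} [Field k]

/-- A prime of `k[X]` remains prime over `k(t)`. -/
theorem irreducible_map_frac {π : k[X]} (hπ : Irreducible π) :
    Irreducible (π.map ((algebraMap k[X] (FractionRing k[X])).comp (C : k →+* k[X]))) := by
  have hl0 : π.leadingCoeff ≠ 0 := leadingCoeff_ne_zero.2 hπ.ne_zero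
  have hu : IsUnit (C π.leadingCoeff⁻¹ : k[X]) := isUnit_C.2 (isUnit_iff_ne_zero.2 (inv_ne_zero hl0))
  have hmon : (C π.leadingCoeff⁻¹ * π).Monic := by
    rw [Monic, leadingCoeff_mul, leadingCoeff_C, inv_mul_cancel₀ hl0]
  have h1 : Irreducible (C π.leadingCoeff⁻¹ * π) := (irreducible_isUnit_mul hu).2 hπ
  have h2 : Prime (C (C π.leadingCoeff⁻¹ * π) : k[X][X]) := prime_C_iff.2 h1.prime
  have h3 : Irreducible ((C π.leadingCoeff⁻¹ * π).map (C : k →+* k[X])) := by
    have h4 := (MulEquiv.irreducible_iff (Bivariate.swap (R := k))).2 h2.irreducible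
    rwa [Bivariate.swap_C] at h4
  have h5 := ((hmon.map (C : k →+* k[X])).irreducible_iff_irreducible_map_fraction_map
    (K := FractionRing k[X])).1 h3
  rw [Polynomial.map_map, Polynomial.map_mul, map_C] at h5
  refine (irreducible_isUnit_mul ?_).1 h5
  exact isUnit_C.2 (isUnit_iff_ne_zero.2 ((_root_.map_ne_zero _).2 (inv_ne_zero hl0)))

theorem irreducible_comp_linear {K : Type*} [Field K] {p : K[X]} (hp : Irreducible p) {a b : K}
    (ha : a ≠ 0) : Irreducible (p.comp (C b + X * C a)) := by
  have : Invertible a := invertibleOfNonzero ha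
  have h1 := (MulEquiv.irreducible_iff (algEquivCMulXAddC a b)).2 hp
  have e : (algEquivCMulXAddC a b) p = p.comp (C b + X * C a) := by
    rw [algEquivCMulXAddC_apply, comp_eq_aeval]
    congr 2
    ring
  rwa [e] at h1

/-- `π(h(t) + s g(t))`, with outer variable `s`. -/
theorem irreducible_pencil' {π h g : k[X]} (hπ : Irreducible π) (hh : 0 < h.natDegree)
    (hg : IsCoprime g (π.comp h)) :
    Irreducible (aeval (C h + X * C g : k[X][X]) π) := by
  have hπd : 0 < π.natDegree := hπ.natDegree_pos
  have hg0 : g ≠ 0 := by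
    rintro rfl
    have h1 : IsUnit (π.comp h) := isCoprime_zero_left.1 hg
    have h2 := natDegree_eq_zero_of_isUnit h1
    rw [natDegree_comp] at h2
    have := Nat.mul_pos hπd hh
    omega
  set K := FractionRing k[X] with hK
  set ι : k[X] →+* K := algebraMap k[X] K with hι
  have hιinj : Function.Injective ι := IsFractionRing.injective k[X] K
  have hgK : ι g ≠ 0 := (map_ne_zero_iff ι hιinj).2 hg0
  set G : k[X][X] := aeval (C h + X * C g : k[X][X]) π with hG
  have hGcomp : G = (π.map (C : k →+* k[X])).comp (C h + X * C g) := by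
    rw [hG, comp, eval₂_map, aeval_def]
    rfl
  have hGK : G.map ι = (π.map (ι.comp (C : k →+* k[X]))).comp (C (ι h) + X * C (ι g)) := by
    rw [hGcomp, Polynomial.map_comp, Polynomial.map_map]
    simp
  have hirrK : Irreducible (G.map ι) := by
    rw [hGK]
    exact irreducible_comp_linear (irreducible_map_frac hπ) hgK
  have hG0 : G.coeff 0 = π.comp h := by
    rw [coeff_zero_eq_eval_zero, hGcomp, eval_comp, eval_map]
    simp only [eval_add, eval_C, eval_mul, eval_X, zero_mul, add_zero]
    rfl
  have hlin : (C h + X * C g : k[X][X]).natDegree = 1 := by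
    rw [add_comm, X_mul_C]
    exact natDegree_linear hg0
  have hlc : G.leadingCoeff = C π.leadingCoeff * g ^ π.natDegree := by
    rw [hGcomp, leadingCoeff_comp (by rw [hlin]; exact one_ne_zero), leadingCoeff_map,
      natDegree_map]
    congr 2
    rw [add_comm, X_mul_C]
    exact leadingCoeff_linear hg0
  have key : ∀ A B : k[X][X], G = A * B → IsUnit (A.map ι) → IsUnit A := by
    intro A B hAB hA
    have h1 : A.natDegree = 0 := by
      have h2 := natDegree_eq_zero_of_isUnit hA
      rwa [natDegree_map_eq_of_injective hιinj] at h2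
    obtain ⟨a, rfl⟩ := natDegree_eq_zero.1 h1
    have h2 : ∀ i, a ∣ G.coeff i := (C_dvd_iff_dvd_coeff a G).1 ⟨B, hAB⟩
    have h3 : a ∣ π.comp h := hG0 ▸ h2 0
    have h4 : a ∣ g ^ π.natDegree := by
      have h5 := h2 G.natDegree
      rw [coeff_natDegree, hlc] at h5
      have hu : IsUnit (C π.leadingCoeff : k[X]) :=
        isUnit_C.2 (isUnit_iff_ne_zero.2 (leadingCoeff_ne_zero.2 hπ.ne_zero))
      rwa [hu.dvd_mul_left] at h5
    have h6 : IsUnit a := (hg.pow_left (m := π.natDegree)).isUnit_of_dvd' h4 h3
    exact isUnit_C.2 h6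
  constructor
  · intro hu
    exact hirrK.not_isUnit (hu.map (mapRingHom ι))
  · intro A B hAB
    have h1 : G.map ι = A.map ι * B.map ι := by rw [hAB, Polynomial.map_mul]
    rcases hirrK.isUnit_or_isUnit h1 with h | h
    · exact Or.inl (key A B hAB h)
    · exact Or.inr (key B A (by rw [hAB, mul_comm]) h)

/-- `π(h(t) + s g(t))`, with outer variable `t`. -/
theorem irreducible_pencil {π h g : k[X]} (hπ : Irreducible π) (hh : 0 < h.natDegree)
    (hg : IsCoprime g (π.comp h)) :
    Irreducible (aeval (h.map C + C X * g.map C : k[X][X]) π) := by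
  have h1 := (MulEquiv.irreducible_iff (Bivariate.swap (R := k))).2 (irreducible_pencil' hπ hh hg)
  have e : Bivariate.swap (aeval (C h + X * C g : k[X][X]) π) =
      aeval (h.map C + C X * g.map C : k[X][X]) π := by
    have e1 : aeval ((Bivariate.swap (R := k)).toAlgHom (C h + X * C g)) π =
        (Bivariate.swap (R := k)).toAlgHom (aeval (C h + X * C g : k[X][X]) π) :=
      aeval_algHom_apply _ _ _
    have e2 : (Bivariate.swap (R := k)).toAlgHom (C h + X * C g) =
        (h.map C + C X * g.map C : k[X][X]) := by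
      show Bivariate.swap (R := k) (C h + X * C g) = _
      rw [map_add, map_mul, Bivariate.swap_C, Bivariate.swap_C, Bivariate.swap_Y]
    rw [e2] at e1
    exact e1.symm
  rwa [e] at h1

theorem natDegree_aux {h g : k[X]} (hdeg : g.natDegree < h.natDegree) :
    (C X * g.map C : k[X][X]).natDegree < (h.map (C : k →+* k[X])).natDegree :=
  calc (C X * g.map C : k[X][X]).natDegree ≤ (g.map (C : k →+* k[X])).natDegree :=
        natDegree_C_mul_le _ _
    _ ≤ g.natDegree := natDegree_map_le
    _ < h.natDegree := hdeg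
    _ = _ := (natDegree_map_eq_of_injective C_injective _).symm

/-- The normalised polynomial `π(h(t) + s g(t))`. -/
theorem pencil_data {π h g : k[X]} (hπ : Irreducible π) (hsep : π.Separable)
    (hh : 0 < h.natDegree) (hdeg : g.natDegree < h.natDegree) (hg : IsCoprime g (π.comp h)) :
    ∃ u : k, u ≠ 0 ∧
      (C (C u⁻¹) * aeval (h.map C + C X * g.map C : k[X][X]) π).Monic ∧
      Irreducible (C (C u⁻¹) * aeval (h.map C + C X * g.map C : k[X][X]) π) ∧
      (derivative (h.map C + C X * g.map C : k[X][X]) ≠ 0 →
        derivative (C (C u⁻¹) * aeval (h.map C + C X * g.map C : k[X][X]) π) ≠ 0) := by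
  set H : k[X][X] := h.map C + C X * g.map C with hH
  set F : k[X][X] := aeval H π with hF
  have hFirr : Irreducible F := irreducible_pencil hπ hh hg
  have h1 := natDegree_aux hdeg
  have hHlc : H.leadingCoeff = C h.leadingCoeff := by
    rw [hH, leadingCoeff_add_of_degree_lt' (degree_lt_degree h1),
      leadingCoeff_map_of_injective C_injective]
  have hHdeg : H.natDegree = h.natDegree := by
    rw [hH, natDegree_add_eq_left_of_natDegree_lt h1, natDegree_map_eq_of_injective C_injective]
  have hFcomp : F = (π.map (C : k →+* k[X])).comp H := by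
    rw [hF, comp, eval₂_map, aeval_def]
    rfl
  have hFlc : F.leadingCoeff = C (π.leadingCoeff * h.leadingCoeff ^ π.natDegree) := by
    rw [hFcomp, leadingCoeff_comp (by rw [hHdeg]; exact hh.ne'), hHlc,
      leadingCoeff_map_of_injective C_injective, natDegree_map_eq_of_injective C_injective,
      C_mul, C_pow]
  set u : k := π.leadingCoeff * h.leadingCoeff ^ π.natDegree with hu
  have hu0 : u ≠ 0 := by
    refine mul_ne_zero (leadingCoeff_ne_zero.2 hπ.ne_zero) (pow_ne_zero _ ?_)
    rw [leadingCoeff_ne_zero]
    rintro rfl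
    simp at hh
  have hU : IsUnit (C (C u⁻¹) : k[X][X]) :=
    isUnit_C.2 (isUnit_C.2 (isUnit_iff_ne_zero.2 (inv_ne_zero hu0)))
  refine ⟨u, hu0, ?_, (irreducible_isUnit_mul hU).2 hFirr, fun hder => ?_⟩
  · rw [Monic, leadingCoeff_mul, leadingCoeff_C, hFlc, ← C_mul, inv_mul_cancel₀ hu0, C_1]
  · rw [derivative_C_mul]
    refine mul_ne_zero hU.ne_zero ?_
    rw [hFcomp, derivative_comp]
    refine mul_ne_zero hder ?_
    intro h0
    have h1 := congrArg natDegree h0
    rw [natDegree_comp, hHdeg, natDegree_zero, derivative_map,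
      natDegree_map_eq_of_injective C_injective] at h1
    have h2 : (derivative π).natDegree = 0 := by
      rcases Nat.mul_eq_zero.1 h1 with h3 | h3
      · exact h3
      · omega
    obtain ⟨d, hd⟩ := natDegree_eq_zero.1 h2
    rw [derivative_map, ← hd, map_C, C_comp] at h0
    have h3 : d = 0 := by simpa using h0
    have h4 : derivative π = 0 := by rw [← hd, h3, C_0]
    exact (separable_iff_derivative_ne_zero hπ).1 hsep h4

/-- Specialisation of the parameter `s` by a homomorphism `φ` to a field. -/
theorem map_pencil {K : Type*} [Field K] (φ : k[X] →+* K) (π h g : k[X]) :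
    (aeval (h.map C + C X * g.map C : k[X][X]) π).map φ =
      (π.map (φ.comp C)).comp (h.map (φ.comp C) + C (φ X) * g.map (φ.comp C)) := by
  have h1 : (mapRingHom φ) (eval₂ (algebraMap k k[X][X]) (h.map C + C X * g.map C : k[X][X]) π) =
      eval₂ ((mapRingHom φ).comp (algebraMap k k[X][X]))
        ((mapRingHom φ) (h.map C + C X * g.map C : k[X][X])) π := hom_eval₂ _ _ _ _
  rw [coe_mapRingHom] at h1
  rw [aeval_def, h1, comp, eval₂_map]
  congr 1
  · ext x
    simp
  · simp [Polynomial.map_map]

/-- The generic member of a pencil. -/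
theorem pencil_generic {K : Type*} [Field K] [Algebra k[X] K] [IsFractionRing k[X] K]
    {π h g : k[X]} (hπ : Irreducible π) (hsep : π.Separable)
    (hh : 0 < h.natDegree) (hdeg : g.natDegree < h.natDegree) (hg : IsCoprime g (π.comp h))
    (hder : derivative h ≠ 0 ∨ derivative g ≠ 0) :
    Irreducible ((π.map ((algebraMap k[X] K).comp C)).comp
      (h.map ((algebraMap k[X] K).comp C) + C (algebraMap k[X] K X) *
        g.map ((algebraMap k[X] K).comp C))) ∧
    ((π.map ((algebraMap k[X] K).comp C)).comp
      (h.map ((algebraMap k[X] K).comp C) + C (algebraMap k[X] K X) *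
        g.map ((algebraMap k[X] K).comp C))).Separable := by
  have hinj : Function.Injective (algebraMap k[X] K) := IsFractionRing.injective k[X] K
  obtain ⟨u, hu0, hmon, hirr, hd⟩ := pencil_data hπ hsep hh hdeg hg
  have hd0 : derivative (h.map C + C X * g.map C : k[X][X]) ≠ 0 := by
    intro h0
    rw [derivative_add, derivative_C_mul, derivative_map, derivative_map] at h0
    have hc : ∀ i, (derivative h).coeff i = 0 ∧ (derivative g).coeff i = 0 := by
      intro i
      have h1 := congrArg (fun p : k[X][X] => p.coeff i) h0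
      simp only [coeff_add, coeff_map, coeff_C_mul, coeff_zero] at h1
      have h2 := congrArg (fun p : k[X] => p.coeff 0) h1
      have h3 := congrArg (fun p : k[X] => p.coeff 1) h1
      simp only [coeff_add, coeff_C_zero, mul_coeff_zero, coeff_X_zero, zero_mul, add_zero,
        coeff_zero] at h2
      simp only [coeff_add, coeff_C_succ, coeff_X_mul, coeff_C_zero, zero_add,
        coeff_zero] at h3
      exact ⟨h2, h3⟩
    rcases hder with h1 | h1
    · exact h1 (Polynomial.ext fun i => (hc i).1)
    · exact h1 (Polynomial.ext fun i => (hc i).2)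
  have hd' := hd hd0
  have h1 := (hmon.irreducible_iff_irreducible_map_fraction_map (K := K)).1 hirr
  have e : (C (C u⁻¹) * aeval (h.map C + C X * g.map C : k[X][X]) π).map (algebraMap k[X] K) =
      C (algebraMap k[X] K (C u⁻¹)) * (π.map ((algebraMap k[X] K).comp C)).comp
      (h.map ((algebraMap k[X] K).comp C) + C (algebraMap k[X] K X) *
        g.map ((algebraMap k[X] K).comp C)) := by
    rw [Polynomial.map_mul, map_C, map_pencil]
  have hU : IsUnit (C (algebraMap k[X] K (C u⁻¹)) : K[X]) := by
    refine isUnit_C.2 (isUnit_iff_ne_zero.2 ?_)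
    rw [map_ne_zero_iff _ hinj]
    exact C_ne_zero.2 (inv_ne_zero hu0)
  have h2 : ((C (C u⁻¹) * aeval (h.map C + C X * g.map C : k[X][X]) π).map
      (algebraMap k[X] K)).Separable := by
    rw [separable_iff_derivative_ne_zero h1, derivative_map]
    rwa [Ne, Polynomial.map_eq_zero_iff hinj]
  rw [e] at h1 h2
  exact ⟨(irreducible_isUnit_mul hU).1 h1, (associated_unit_mul_left _ _ hU).separable h2⟩

/-- One prime in a pencil. -/
theorem pencil_one {π h g : k[X]} (hπ : Irreducible π) (hsep : π.Separable)
    (hh : 0 < h.natDegree) (hdeg : g.natDegree < h.natDegree) (hg : IsCoprime g (π.comp h)) :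
    ∃ E : Finset k[X][X], (∀ P ∈ E, IsThinEq P) ∧ ∀ c : k, derivative (h + C c * g) ≠ 0 →
      (∀ P ∈ E, NoRootAt P c) →
        Irreducible (π.comp (h + C c * g)) ∧ (π.comp (h + C c * g)).Separable := by
  by_cases hder : derivative (h.map C + C X * g.map C : k[X][X]) = 0
  · refine ⟨∅, by simp, fun c hc _ => absurd ?_ hc⟩
    have h1 := congrArg (fun p : k[X][X] => p.map (evalRingHom c)) hder
    simp only [← derivative_map, Polynomial.map_add, Polynomial.map_mul, Polynomial.map_map,
      map_C, Polynomial.map_zero] at h1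
    have e : (evalRingHom c).comp (C : k →+* k[X]) = RingHom.id k := by
      ext x
      simp
    rw [e, Polynomial.map_id, Polynomial.map_id] at h1
    simpa using h1
  obtain ⟨u, hu0, hmon, hirr, hd⟩ := pencil_data hπ hsep hh hdeg hg
  obtain ⟨E, hE1, hE2⟩ := hilb_thin _ hmon hirr (hd hder)
  refine ⟨E, hE1, fun c hc hroot => ?_⟩
  have h1 := hE2 c hroot
  have e : (evalRingHom c).comp (C : k →+* k[X]) = RingHom.id k := by
    ext x
    simp
  have h2 : (C (C u⁻¹) * aeval (h.map C + C X * g.map C : k[X][X]) π).map (evalRingHom c) =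
      C u⁻¹ * π.comp (h + C c * g) := by
    rw [Polynomial.map_mul, map_C, map_pencil, e, Polynomial.map_id, Polynomial.map_id,
      Polynomial.map_id]
    simp
  rw [h2] at h1
  have h3 : Irreducible (π.comp (h + C c * g)) :=
    (irreducible_isUnit_mul (isUnit_C.2 (isUnit_iff_ne_zero.2 (inv_ne_zero hu0)))).1 h1
  refine ⟨h3, ?_⟩
  rw [separable_iff_derivative_ne_zero h3, derivative_comp]
  refine mul_ne_zero hc ?_
  intro h0
  have hdegc : (h + C c * g).natDegree = h.natDegree :=
    natDegree_add_eq_left_of_natDegree_lt ((natDegree_C_mul_le _ _).trans_lt hdeg)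
  have h4 := congrArg natDegree h0
  rw [natDegree_comp, hdegc, natDegree_zero] at h4
  have h5 : (derivative π).natDegree = 0 := by
    rcases Nat.mul_eq_zero.1 h4 with h6 | h6
    · exact h6
    · omega
  obtain ⟨d, hd⟩ := natDegree_eq_zero.1 h5
  rw [← hd, C_comp] at h0
  have h6 : derivative π = 0 := by rw [← hd, h0]
  exact (separable_iff_derivative_ne_zero hπ).1 hsep h6

end Pool.Agent.K6.H71.Thin
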