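import Pool.Agent.K6.H71.Thin2
import Pool.Agent.R939.EI.Tw1
import Pool.Agent.R915.It.Main

/-!
# The Tate conjecture at 2 in pencils of covers
-/

set_option autoImplicit false

namespace Pool.Agent.K6.H71.Thin

open Polynomial Pool.Agent.R939.EI Pool.Agent.TH115.GD

section part

variable {k : Type} [Field k]

/-- All the primes of `f` in a pencil. -/
theorem pencil_all {f h g : k[X]} (hf : f ≠ 0)
    (hsep : ∀ π : k[X], Irreducible π → π ∣ f → π.Separable)
    (hh : 0 < h.natDegree) (hdeg : g.natDegree < h.natDegree) (hg : IsCoprime g (f.comp h)) :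
    ∃ E : Finset k[X][X], (∀ P ∈ E, IsThinEq P) ∧ ∀ c : k, derivative (h + C c * g) ≠ 0 →
      (∀ P ∈ E, NoRootAt P c) → Inert f (h + C c * g) := by
  classical
  set S := (UniqueFactorizationMonoid.normalizedFactors f).toFinset with hS
  have hmem : ∀ π ∈ S, Irreducible π ∧ π ∣ f := by
    intro π hπ
    rw [hS, Multiset.mem_toFinset] at hπ
    exact ⟨UniqueFactorizationMonoid.irreducible_of_normalized_factor π hπ,
      UniqueFactorizationMonoid.dvd_of_mem_normalizedFactors hπ⟩
  have key : ∀ π ∈ S, ∃ E : Finset k[X][X], (∀ P ∈ E, IsThinEq P) ∧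
      ∀ c : k, derivative (h + C c * g) ≠ 0 → (∀ P ∈ E, NoRootAt P c) →
        Irreducible (π.comp (h + C c * g)) ∧ (π.comp (h + C c * g)).Separable := by
    intro π hπ
    obtain ⟨h1, h2⟩ := hmem π hπ
    refine pencil_one h1 (hsep π h1 h2) hh hdeg ?_
    obtain ⟨f', hf'⟩ := h2
    rw [hf', mul_comp] at hg
    exact hg.of_mul_right_left
  choose! E hE1 hE2 using key
  refine ⟨S.biUnion E, ?_, ?_⟩
  · intro P hP
    obtain ⟨π, hπ, hP'⟩ := Finset.mem_biUnion.1 hP
    exact hE1 π hπ P hP'
  · intro c hc hroot π hπ hπf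
    obtain ⟨π', hπ', hass⟩ := UniqueFactorizationMonoid.exists_mem_normalizedFactors_of_dvd hf hπ hπf
    have hπ'S : π' ∈ S := by rw [hS, Multiset.mem_toFinset]; exact hπ'
    have h1 := hE2 π' hπ'S c hc (fun P hP => hroot P (Finset.mem_biUnion.2 ⟨π', hπ'S, hP⟩))
    obtain ⟨u, hu⟩ := hass.symm
    obtain ⟨w, hw, hwu⟩ := Polynomial.isUnit_iff.1 u.isUnit
    have e : π.comp (h + C c * g) = C w * π'.comp (h + C c * g) := by
      rw [← hu, ← hwu, mul_comp, C_comp, mul_comm]
    rw [e]
    have hU : IsUnit (C w : k[X]) := isUnit_C.2 hw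
    refine ⟨(irreducible_isUnit_mul hU).2 h1.1, ?_⟩
    exact (associated_unit_mul_left _ _ hU).symm.separable h1.2

end part

section main

/-- **Special members.** -/
theorem special {k k' K F : Type} [Field k] [Field k'] [Algebra k k'] [Field K] [Algebra k[X] K]
    [Field F] [Algebra k'[X] F] [IsFractionRing k'[X] F] [Algebra K F] (hT : IsTower k k' K F)
    (h2 : (2 : k) ≠ 0) {a b D h g : k[X]} (hb : b ≠ 0) (hd : a ^ 2 - 4 * b ≠ 0)
    (hNb : NotNorm b) (hNd : NotNorm (a ^ 2 - 4 * b))
    (hO : OnlyTrivial a b) (hO' : OnlyTrivial (-2 * a) (a ^ 2 - 4 * b)) (hD : InertIn a b D)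
    (hsep : ∀ π : k[X], Irreducible π → π ∣ b * (a ^ 2 - 4 * b) * D → π.Separable)
    (hodd : Odd h.natDegree) (hdeg : g.natDegree < h.natDegree)
    (hg : IsCoprime g ((b * (a ^ 2 - 4 * b) * D).comp h)) :
    ∃ E : Finset k[X][X], (∀ P ∈ E, IsThinEq P) ∧
      ∀ c : k, derivative (h + C c * g) ≠ 0 → (∀ P ∈ E, NoRootAt P c) → ∀ e : k, e ≠ 0 →
        TateAtTwo (F := F) k' (crvT (algebraMap k[X] K ((C e * (a * D)).comp (h + C c * g)))
          (algebraMap k[X] K ((C (e ^ 2) * (b * D ^ 2)).comp (h + C c * g)))) := by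
  obtain ⟨E, hE1, hE2⟩ := pencil_all (mul_ne_zero (mul_ne_zero hb hd) hD.1) hsep hodd.pos hdeg hg
  refine ⟨E, hE1, fun c hc hroot e he => ?_⟩
  refine twist_main hT h2 hb hd hNb hNd hO hO' hD he ?_ (hE2 c hc hroot)
  rwa [natDegree_add_eq_left_of_natDegree_lt ((natDegree_C_mul_le _ _).trans_lt hdeg)]

/-- **The generic member.** -/
theorem generic {k₀ k k' K F : Type} [Field k₀] [Field k] [Algebra k₀[X] k]
    [IsFractionRing k₀[X] k] [Field k'] [Algebra k k'] [Field K] [Algebra k[X] K]
    [Field F] [Algebra k'[X] F] [IsFractionRing k'[X] F] [Algebra K F] (hT : IsTower k k' K F)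
    (h2 : (2 : k₀) ≠ 0) {a b h g : k₀[X]} (hb : Irreducible b) (hbs : b.Separable)
    (hbo : Odd b.natDegree)
    (hd : Irreducible (a ^ 2 - 4 * b)) (hds : (a ^ 2 - 4 * b).Separable)
    (hdo : Odd (a ^ 2 - 4 * b).natDegree)
    (hodd : Odd h.natDegree) (hdeg : g.natDegree < h.natDegree)
    (hg : IsCoprime g ((b * (a ^ 2 - 4 * b)).comp h))
    (hder : derivative h ≠ 0 ∨ derivative g ≠ 0) {e : k} (he : e ≠ 0) :
    TateAtTwo (F := F) k' (crvT
      (algebraMap k[X] K (C e * (a.map ((algebraMap k₀[X] k).comp C)).comp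
        (h.map ((algebraMap k₀[X] k).comp C) + C (algebraMap k₀[X] k X) *
          g.map ((algebraMap k₀[X] k).comp C))))
      (algebraMap k[X] K (C (e ^ 2) * (b.map ((algebraMap k₀[X] k).comp C)).comp
        (h.map ((algebraMap k₀[X] k).comp C) + C (algebraMap k₀[X] k X) *
          g.map ((algebraMap k₀[X] k).comp C))))) := by
  set ι : k₀ →+* k := (algebraMap k₀[X] k).comp C with hι
  have hinj : Function.Injective (algebraMap k₀[X] k) := IsFractionRing.injective k₀[X] k
  have hιinj : Function.Injective ι := hinj.comp C_injective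
  have h2' : (2 : k) ≠ 0 := by
    have e : ι 2 = 2 := map_ofNat ι 2
    rw [← e]
    exact (map_ne_zero_iff ι hιinj).2 h2
  set H : k[X] := h.map ι + C (algebraMap k₀[X] k X) * g.map ι with hH
  have hdmap : (a.map ι) ^ 2 - 4 * b.map ι = (a ^ 2 - 4 * b).map ι := by
    rw [Polynomial.map_sub, Polynomial.map_pow, Polynomial.map_mul]
    congr 2
    rw [Polynomial.map_ofNat]
  have hgb : IsCoprime g (b.comp h) := by
    rw [mul_comp] at hg
    exact hg.of_mul_right_left
  have hgd : IsCoprime g ((a ^ 2 - 4 * b).comp h) := by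
    rw [mul_comp] at hg
    exact hg.of_mul_right_right
  -- irreducible over `k`
  have hbk : Irreducible (b.map ι) := by
    have h1 := irreducible_map_frac (k := k₀) hb
    have h3 := (MulEquiv.irreducible_iff (Polynomial.mapEquiv
      (IsFractionRing.ringEquivOfRingEquiv (K := FractionRing k₀[X]) (L := k)
        (RingEquiv.refl k₀[X])))).2 h1
    have h4 : (Polynomial.mapEquiv (IsFractionRing.ringEquivOfRingEquiv (K := FractionRing k₀[X])
        (L := k) (RingEquiv.refl k₀[X]))) (b.map ((algebraMap k₀[X]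
          (FractionRing k₀[X])).comp C)) = b.map ι := by
      rw [mapEquiv_apply, Polynomial.map_map]
      congr 1
      ext x
      simp [hι]
    rwa [h4] at h3
  have hdk : Irreducible ((a ^ 2 - 4 * b).map ι) := by
    have h1 := irreducible_map_frac (k := k₀) hd
    have h3 := (MulEquiv.irreducible_iff (Polynomial.mapEquiv
      (IsFractionRing.ringEquivOfRingEquiv (K := FractionRing k₀[X]) (L := k)
        (RingEquiv.refl k₀[X])))).2 h1
    have h4 : (Polynomial.mapEquiv (IsFractionRing.ringEquivOfRingEquiv (K := FractionRing k₀[X])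
        (L := k) (RingEquiv.refl k₀[X]))) ((a ^ 2 - 4 * b).map ((algebraMap k₀[X]
          (FractionRing k₀[X])).comp C)) = (a ^ 2 - 4 * b).map ι := by
      rw [mapEquiv_apply, Polynomial.map_map]
      congr 1
      ext x
      simp [hι]
    rwa [h4] at h3
  have hgenb := pencil_generic (K := k) hb hbs hodd.pos hdeg hgb hder
  have hgend := pencil_generic (K := k) hd hds hodd.pos hdeg hgd hder
  have hD1 : InertIn (a.map ι) (b.map ι) 1 := by
    refine ⟨one_ne_zero, fun π hπ hπ1 => ?_⟩
    exact absurd (isUnit_of_dvd_one hπ1) hπ.not_isUnit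
  have hHodd : Odd H.natDegree := by
    have h1 : H.natDegree = h.natDegree := by
      rw [hH, natDegree_add_eq_left_of_natDegree_lt, natDegree_map_eq_of_injective hιinj]
      calc _ ≤ (g.map ι).natDegree := natDegree_C_mul_le _ _
        _ ≤ g.natDegree := natDegree_map_le
        _ < h.natDegree := hdeg
        _ = _ := (natDegree_map_eq_of_injective hιinj _).symm
    rwa [h1]
  have hbo' : Odd (b.map ι).natDegree := by rwa [natDegree_map_eq_of_injective hιinj]
  have hdo' : Odd ((a ^ 2 - 4 * b).map ι).natDegree := by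
    rwa [natDegree_map_eq_of_injective hιinj]
  have hin : Inert (b.map ι * ((a.map ι) ^ 2 - 4 * b.map ι) * 1) H := by
    intro π hπ hdvd
    have h5 : ∀ p : k[X], Irreducible p → Irreducible (p.comp H) ∧ (p.comp H).Separable → π ∣ p →
        Irreducible (π.comp H) ∧ (π.comp H).Separable := by
      intro p hp hpH hπp
      obtain ⟨u, hu⟩ := (hπ.associated_of_dvd hp hπp).symm
      obtain ⟨w, hw, hwu⟩ := Polynomial.isUnit_iff.1 u.isUnit
      have e : π.comp H = C w * p.comp H := by
        rw [← hu, ← hwu, mul_comp, C_comp, mul_comm]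
      rw [e]
      have hU : IsUnit (C w : k[X]) := isUnit_C.2 hw
      exact ⟨(irreducible_isUnit_mul hU).2 hpH.1,
        (associated_unit_mul_left _ _ hU).symm.separable hpH.2⟩
    rw [hdmap, mul_one] at hdvd
    rcases hπ.prime.dvd_or_dvd hdvd with h6 | h6
    · exact h5 _ hbk hgenb h6
    · exact h5 _ hdk hgend h6
  have hO2 : OnlyTrivial (-2 * a.map ι) ((a.map ι) ^ 2 - 4 * b.map ι) := by
    apply Pool.Agent.R915.It.onlyTrivial_irr
    rw [hdmap]
    exact hdk
  have key := twist_main hT h2' (a := a.map ι) (b := b.map ι) (D := 1) (h := H) (c := e)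
    hbk.ne_zero (by rw [hdmap]; exact hdk.ne_zero)
    (Pool.Agent.R915.It.notNorm_irr_odd hbk hbo')
    (by rw [hdmap]; exact Pool.Agent.R915.It.notNorm_irr_odd hdk hdo')
    (Pool.Agent.R915.It.onlyTrivial_irr hbk) hO2 hD1 he hHodd hin
  have e1 : (C e * (a.map ι * 1)).comp H = C e * (a.map ι).comp H := by
    rw [mul_one, mul_comp, C_comp]
  have e2 : (C (e ^ 2) * (b.map ι * 1 ^ 2)).comp H = C (e ^ 2) * (b.map ι).comp H := by
    rw [one_pow, mul_one, mul_comp, C_comp]
  rw [e1, e2] at key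
  exact key

end main

end Pool.Agent.K6.H71.Thin
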